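import Pool.Agent.H83.VP.Ev
import Pool.Agent.H83.VG.V0g

/-!
# Several targets with arbitrary paths and a side path

`v0pC`: the class theorem `V0pCStmt`. `v0p`: the class theorem `Pool.V0S.V0pStmt` (helper87).
-/

set_option autoImplicit false

namespace Pool.VP83

open Finset Real MvPolynomial
open Pool.Agent.H49.Ent Pool.Agent.H32.Dense
open Pool.STK hiding pr2
open Pool.KA Pool.KSAT Pool.K2S Pool.PB Pool.S6C
open Pool.GEN Pool.CHT Pool.CHX Pool.ISO Pool.LA91 Pool.AVG71 Pool.AVG5 Pool.D2F2 Pool.AVG57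
open Pool.RCD Pool.AVG96 Pool.V0F Pool.V0S Pool.OWN68
open Pool.PB.Trl (rt rt_mem t_rt)
open Pool.BFL (Pb)
open Pool.KVA (MI)
open Pool.KAF (rs Pr)
open Pool.FS21 (oth)
open Pool.VG83 (ch_to ch_det ch_pt jh_few jv_few path_few cod_path det_cR2 nb_fam ld_if jh_if jv_if
  vv_if hif_fun yc_le)

/-- **(V0PC)** -/
theorem v0pC : V0pCStmt := by
  intro C D D' k K h x₀ ξ ε hD hDD hK hk hh hh1 hx hxh hξ hξ1 hε
  obtain ⟨ι, π₁, C₁, hι, hπ₁, hC₁, X₀, HF⟩ := vs_finC C k K (by omega) hh hh1 hx hxh one_pos hε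
  obtain ⟨π₀, hπ₀, hπ₀1, hπ01⟩ : ∃ π₀ : ℝ, 0 < π₀ ∧ π₀ ≤ 1 ∧ π₀ ≤ π₁ :=
    ⟨min π₁ 1, lt_min hπ₁ one_pos, min_le_right _ _, min_le_left _ _⟩
  obtain ⟨δ, θ, Cc⟩ := cp_ex k C hι hξ hξ1
  have hθ0 := Cc.θ0
  have hk0 : (0 : ℝ) ≤ k := Nat.cast_nonneg k
  obtain ⟨K', hK'⟩ : ∃ K', K = K' + 1 := ⟨K - 1, by omega⟩
  refine ⟨π₀, δ, 10, hπ₀, Cc.δ0, fun T hT => ⟨12 * T + 4 * k + 60, by linarith, fun Cg =>
    ⟨θ / (1000 * ((Cg : ℝ) + 1)), by positivity, ?_⟩⟩⟩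
  intro m S c sn G b o φ L w u y j x a x' x'' w₁ sp hyφ W hsp hfr _ E
  obtain ⟨φ₀, hφ₀⟩ : ∃ φ₀ : ℝ, φ₀ = θ / (1000 * ((Cg : ℝ) + 1)) := ⟨_, rfl⟩
  rw [← hφ₀] at hyφ hfr
  have hφ₀0 : 0 < φ₀ := by rw [hφ₀]; positivity
  have hu := W.u0
  have hφ0 := L.φ0
  have hφy : φ ≤ y := by
    have h1 := W.yφ
    have h2 : 0 ≤ (k : ℝ) * φ := by positivity
    linarith
  have hy0 : 0 ≤ y := hφ0.le.trans hφy
  have hθu : 0 < θ * u := mul_pos hθ0 hu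
  have hyξ : 2000 * y ≤ ξ * u := by
    have f0 : ((Cg : ℝ) + 1) * (1000 * φ₀) = θ := by
      rw [hφ₀]
      field_simp
    have f1 : 1000 * φ₀ ≤ θ := by
      rw [← f0]
      refine le_mul_of_one_le_left (by positivity) ?_
      have : (0 : ℝ) ≤ Cg := Nat.cast_nonneg _
      linarith
    have f2 := mul_le_mul_of_nonneg_right f1 hu.le
    have f3 := mul_le_mul_of_nonneg_right Cc.t0 hu.le
    linarith
  obtain ⟨Λ, hΛ⟩ : ∃ Λ : ℝ, Λ = 12 * T + 4 * k + 60 := ⟨_, rfl⟩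
  rw [← hΛ] at W hfr
  have Nn := np_ex L W hξ hξ1 hT hΛ hyξ
  obtain ⟨w1, w2, w3, w4, w5, w6, w7, w8, w9, w10, w11, w12, w13, w14, w15, w16, w17, w18, w19,
    w20, w21, w22, w23⟩ := Nn.wins
  obtain ⟨s1, s2, s3, s4, s5, s6, s7, s8, s9, s10⟩ := Nn.sm
  obtain ⟨Pq, p1, p2, p3, p4, p5⟩ := Nn.pq (S := T + 1) (by linarith) (by linarith)
  obtain ⟨Pr', r1, r2, r3, r4, r5⟩ := Nn.pq (S := 3 * T + 1) (by linarith) (by linarith)
  have hb1 : b ≤ 1 := by linarith [L.o1]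
  obtain ⟨P, hP⟩ : ∃ P : ℕ → ℝ, P = fun l => ((Pq l : ℚ) : ℝ) := ⟨_, rfl⟩
  obtain ⟨Pe', hPe'⟩ : ∃ P : ℕ → ℝ, P = fun l => ((Pr' l : ℚ) : ℝ) := ⟨_, rfl⟩
  have hf1 : FrI S c k sp b (fun i : Fin k => P i) w₁ x' (φ₀ * u) := by
    rw [hP]
    exact hfr (fun i : Fin k => Pq i) x' (Or.inl rfl) p4 p5
  have hf2 : FrI S c k sp b (fun i : Fin k => Pe' i) w₁ x'' (φ₀ * u) := by
    rw [hPe']
    exact hfr (fun i : Fin k => Pr' i) x'' (Or.inr rfl) r4 r5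
  have hPP : ∀ i < k, P i ≤ Pe' i := fun i hi => by
    rw [hP, hPe']
    have e1 := (p3 i hi).2
    have e2 := (r3 i hi).1
    show (Pq i : ℝ) ≤ Pr' i
    have e3 : (T + 1 + ((k : ℝ) - i)) * u = T * u + (1 + ((k : ℝ) - i)) * u := by ring
    have e4 : (3 * T + 1 + ((k : ℝ) - i)) * u = 3 * (T * u) + (1 + ((k : ℝ) - i)) * u := by ring
    rw [e3] at e1
    rw [e4] at e2
    linarith
  have hφ₀u : 0 ≤ φ₀ * u := by positivity
  obtain ⟨C₂, htm⟩ := L.tm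
  obtain ⟨k1, k2⟩ := Nn.k9_c
  obtain ⟨n1, n2⟩ := Nn.nbc
  -- the class facts
  have B1 := v0b_fam (D := K') L Nn.vbn hf1 hf2 hφ₀u hPP hsp hθu E
  have B3 := nb_fam (D := K') (w := w) L Nn.W.aG w10 w11 n1 Nn.tpb n2 hb1 hθu E
  have B4 := k9_fam htm L.pos c k K' sn (b := b) (w := w) (φ := φ)
    (u := u) (E := E) (ε := θ * u) L.b0 w1 k1 k2 hθu
  have B5 := alive_cls htm 1 (ε₀ := 1) (δ := φ / 4) (ψ := θ * u) one_pos (by positivity) hθu
  obtain ⟨J₂, hJ₂⟩ := exists_nat_ge (Z2 k C Cg X₀ C₁ / φ)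
  refine Bas.mono (J₂ + 1) ((B1.and (B3.and B4)).and B5) ?_
  rintro J hJ F A ⟨⟨H1, H3, H4⟩, hA, H6⟩ G₀ Hb Hw H₀ H γ gg Xt i0 TV tp χ₁ χ₂ σ Cj Cx sd
    LD0 hH g
  clear B1 B3 B4 B5
  have hcl := isLaw_cond F.isLaw hA
  have h0 := hcl.nonneg
  have hJ0 : (0 : ℝ) ≤ J := Nat.cast_nonneg J
  have hJp : (0 : ℝ) < J := by
    have : 0 < J := by omega
    exact_mod_cast this
  have hsup : ∀ ω, 0 < Pool.Agent.H49.Ent.cond F.p A True ω → A ω := fun ω hω => of_cond_pos hω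
  have mj : ∀ {a a' : ℝ}, a ≤ a' → a * J ≤ a' * J := fun h => mul_le_mul_of_nonneg_right h hJ0
  have hZφ : Z2 k C Cg X₀ C₁ ≤ φ * J := by
    have e1 : (J₂ : ℝ) ≤ J := by
      have : J₂ ≤ J := by omega
      exact_mod_cast this
    have e2 := hJ₂.trans e1
    rw [div_le_iff₀ hφ0] at e2
    linarith only [e2]
  obtain ⟨z1, z2, z3, z4, z5, z6, z7, z8⟩ := Z2_le k C Cg X₀ hC₁
  have hφθ : φ ≤ θ * u := by
    have f0 : ((Cg : ℝ) + 1) * (1000 * φ₀) = θ := by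
      rw [hφ₀]
      field_simp
    have f1 : φ₀ ≤ θ := by
      rw [← f0]
      have : (0 : ℝ) ≤ Cg := Nat.cast_nonneg _
      nlinarith
    exact hφy.trans (hyφ.trans (mul_le_mul_of_nonneg_right f1 hu.le))
  have hZθ : Z2 k C Cg X₀ C₁ ≤ θ * u * J := hZφ.trans (mj hφθ)
  -- the numbers of the event
  obtain ⟨q, hq⟩ : ∃ q : ℕ, q = ⌊(u + 500 * y) * (J : ℝ)⌋₊ := ⟨_, rfl⟩
  obtain ⟨X, hX⟩ : ∃ X : ℕ, X = ⌊ξ * u * (J : ℝ)⌋₊ := ⟨_, rfl⟩
  obtain ⟨Y, hY⟩ : ∃ Y : ℕ, Y = ⌈1000 * y * (J : ℝ)⌉₊ + 3 := ⟨_, rfl⟩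
  obtain ⟨I, hI'⟩ : ∃ I : ℕ, I = ⌈φ / 4 * (J : ℝ)⌉₊ := ⟨_, rfl⟩
  have hFl : Fl u y ξ φ w w₁ J q X Y I := by
    rw [hq, hX, hY, hI']
    exact fl_ex J hu hy0 hξ hφ0 (L.b0.trans w1) W.hw1 W.hw2
  rw [← hq, ← hX] at g
  have hgrd := g.grd
  rw [← hY] at hgrd
  obtain ⟨c0, c1, c2, c3, c4, c5, c6, c7, c8, c9⟩ := Cc.le (Cg := Cg) (X₀ := X₀) (C₁ := C₁)
    (u := u) (J := (J : ℝ)) (X := (X : ℝ)) (y := y) (φ := φ) (φ₀ := φ₀) (h := h) (Y := (Y : ℝ)) hC₁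
    hu hJ0 hFl.x1 hy0 hyφ hφ0.le hφy hφ₀ hZθ hh hh1 (Nat.cast_nonneg _) hFl.y2
  obtain ⟨κ, hκ⟩ : ∃ κ : ℝ, κ = κP k C Cg y φ φ₀ u θ δ J Y := ⟨_, rfl⟩
  rw [← hκ] at c1 c5 c6 c7 c8 c9
  -- the window of the time
  have hw3J := mj (show w + 3 * φ ≤ 1 by linarith [Nn.W.wo, Nn.W.o1])
  obtain ⟨i₀, hi₀, TW⟩ := H6 ⌊(w₁ : ℝ) * J⌋₊ I hFl.i1 (by
    have e1 : ((⌊(w₁ : ℝ) * J⌋₊ + I + 1 : ℕ) : ℝ) ≤ (J : ℕ) := by
      push_cast
      have e2 := hFl.w1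
      have e3 := hFl.i2
      linarith only [e2, e3, hw3J, hZφ, z6]
    exact_mod_cast e1)
  obtain ⟨W', hW'⟩ : ∃ W' : ℕ, W' = ⌊(w₁ : ℝ) * J⌋₊ + i₀ := ⟨_, rfl⟩
  rw [← hW'] at TW
  have hi₀R : (i₀ : ℝ) ≤ I := by exact_mod_cast hi₀.le
  have hW2 : (W' : ℝ) ≤ (w + 2 * φ) * J := by
    rw [hW']
    push_cast
    have e1 := hFl.w1
    have e2 := hFl.i2
    linarith only [e1, e2, hi₀R, hZφ, z6]
  have hw₁W : ⌊(w₁ : ℝ) * J⌋₊ ≤ W' := by omega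
  have hwW : ⌊w * J⌋₊ ≤ W' := hFl.w2.trans hw₁W
  obtain ⟨mm, hmm⟩ : ∃ mm : ℕ, mm = (Cg + 1) * Y + 1 := ⟨_, rfl⟩
  have hmmR : (mm : ℝ) = ((Cg : ℝ) + 1) * Y + 1 := by
    rw [hmm]
    push_cast
    ring
  have NEv : Pool.VG83.NE k sn φ w u y ξ J γ q X mm W' :=
    { big := by linarith
      g1 := fun l hl => (g.γb l hl).1
      g2 := fun l hl => (g.γb l hl).2
      q1 := hFl.q1
      q2 := hFl.q2
      X1 := hFl.x1
      X2 := hFl.x2
      mm1 := by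
        rw [hmmR]
        exact yc_le (Nat.cast_nonneg _) hFl.y1
      mm2 := by rw [hmmR]; exact c3
      W1 := by
        have e1 := hFl.w3
        have e2 : (⌊w * J⌋₊ : ℝ) ≤ W' := by exact_mod_cast hwW
        linarith only [e1, e2]
      W2 := hW2 }
  have NFv := Nn.nf NEv (P := P) (fun l hl => by rw [hP]; exact p1 l hl)
  have WJ : W' ≤ J := by
    have := NFv.WX
    omega
  -- the labels
  have LD1 := ld_if (show D ≤ K' by omega) LD0 hH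
  have hx'1 : x' ≤ 1 := by linarith [L.o1]
  have ha1 : a ≤ 1 := by linarith [L.o1]
  have hx1 : x ≤ 1 := W.xa.trans ha1
  have hj1 : (j : ℝ) ≤ 1 := W.jx.trans hx1
  -- the digits
  obtain ⟨Nf, hNf⟩ : ∃ Nf : ℕ → ℕ → ℝ, Nf = fun l j' => if j' = 0 then nfF k sn w x' φ l
    else P l := ⟨_, rfl⟩
  obtain ⟨Na, hNa⟩ : ∃ Na : ℕ → ℕ → ℝ, Na = fun l j' => if j' = 0 then nnF k sn w u y φ l
    else (((γ l + q + (X + mm) : ℕ) : ℝ) - W') / J := ⟨_, rfl⟩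
  obtain ⟨Nv, hNv⟩ : ∃ Nv : ℕ → ℕ → ℝ, Nv = fun l j' => if j' = 0 then ((γ l + q : ℕ) : ℝ) / J
    else (((γ l + q + (X + mm) : ℕ) : ℝ) - W') / J := ⟨_, rfl⟩
  obtain ⟨Nu, hNu⟩ : ∃ Nu : ℕ → ℕ → ℝ, Nu = fun l j' => if j' = 0 then sn l w + (u + 100 * y)
    else sn l w - w + (u + 100 * y) := ⟨_, rfl⟩
  obtain ⟨nb, hnb⟩ : ∃ nb : ℕ → ℝ, nb = fun l => ((γ l + q + X : ℕ) : ℝ) / J := ⟨_, rfl⟩
  have Nf0 : ∀ l, Nf l 0 = nfF k sn w x' φ l := fun l => by rw [hNf]; rfl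
  have Nf1 : ∀ l, Nf l 1 = P l := fun l => by rw [hNf]; rfl
  have Na0 : ∀ l, Na l 0 = nnF k sn w u y φ l := fun l => by rw [hNa]; rfl
  have Na1 : ∀ l, Na l 1 = (((γ l + q + (X + mm) : ℕ) : ℝ) - W') / J := fun l => by
    rw [hNa]; rfl
  have Nv0 : ∀ l, Nv l 0 = ((γ l + q : ℕ) : ℝ) / J := fun l => by rw [hNv]; rfl
  have Nv1 : ∀ l, Nv l 1 = (((γ l + q + (X + mm) : ℕ) : ℝ) - W') / J := fun l => by
    rw [hNv]; rfl
  have Nu0 : ∀ l, Nu l 0 = sn l w + (u + 100 * y) := fun l => by rw [hNu]; rfl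
  have Nu1 : ∀ l, Nu l 1 = sn l w - w + (u + 100 * y) := fun l => by rw [hNu]; rfl
  have fNf0 : (fun l => Nf l 0) = nfF k sn w x' φ := funext Nf0
  have fNf1 : (fun l => Nf l 1) = P := funext Nf1
  have fNa0 : (fun l => Na l 0) = nnF k sn w u y φ := funext Na0
  have fNu0 : (fun l => Nu l 0) = fun l => sn l w + (u + 100 * y) := funext Nu0
  have fNu1 : (fun l => Nu l 1) = fun l => sn l w - w + (u + 100 * y) := funext Nu1
  have hnbJ : (fun l => nb l * (J : ℝ)) = fun l => ((γ l + q + X : ℕ) : ℝ) := by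
    funext l
    rw [hnb]
    show ((γ l + q + X : ℕ) : ℝ) / J * J = _
    rw [div_mul_cancel₀ _ hJp.ne']
  have hmmU : (2 : ℝ) ^ (Cg * Y) + 1 ≤ 2 ^ mm := by
    have e1 : (1 : ℝ) ≤ 2 ^ (Cg * Y) := one_le_pow₀ (by norm_num)
    have e2 : (2 : ℝ) ^ (Cg * Y + 1) ≤ 2 ^ mm := pow_le_pow_right₀ (by norm_num) (by
      rw [hmm, Nat.add_mul]
      omega)
    rw [pow_succ] at e2
    linarith only [e1, e2]
  have a1J : ∀ l, Na l 1 * J + W' = ((γ l + q + (X + mm) : ℕ) : ℝ) := fun l => by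
    rw [Na1, div_mul_cancel₀ _ hJp.ne', sub_add_cancel]
  have hlJ : ∀ {s t : ℝ}, s * J ≤ t * J → s ≤ t := fun h => le_of_mul_le_mul_right h hJp
  -- the contact coordinates
  have V1 := H1 _ _ _ LD1 (fun l => Na l 1) (fun l hl => by
    have e1 := a1J l
    have e2 := NFv.f1 l hl
    linarith) κ (by linarith)
  simp only [jh_if, jv_if] at V1
  rw [← fNa0, ← fNf0, ← fNf1] at V1
  have hgp := grdP_of (W := W') (zw := cR F A w₁) hgrd (g.tv W' hw₁W WJ)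
  have dR : ∀ {v : ℝ}, (w₁ : ℝ) ≤ v → v ≤ 1 →
      Det (Pool.Agent.H49.Ent.cond F.p A True) (cR F A v) (cR F A w₁) := fun h1 h2 =>
    det_cR2 (fun _ h => h) h1 h2 hsup
  have dC : ∀ {v : ℝ}, x ≤ v → v ≤ 1 →
      Det (Pool.Agent.H49.Ent.cond F.p A True) (cR F A v) Cx := fun h1 h2 ω ν hω hν e =>
    g.hx ω ν hω hν (det_cR2 (fun _ h => h) h1 h2 hsup ω ν hω hν e)
  have N2f := n2_ev (w := ⌊w * J⌋₊) (N := Nf) hcl hsup WJ g.cl hgp (dR (w5.trans (W.xa.trans w14))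
    hx'1) (dC (W.xa.trans w14) hx'1) (fun l hl => by rw [Nf0]; exact NFv.nbf l hl)
  have N1f := n1_ev (w := ⌊w * J⌋₊) (N := Na) (N' := Nv) (d := 300 * y * J) hcl hsup WJ g.cl g.x0
    hgp (dR w9 ha1) (dC W.xa ha1) (by positivity)
    (fun l _ => by rw [Nv0, div_mul_cancel₀ _ hJp.ne']) (fun l => by rw [Nv1, Na1])
    (fun l hl => by
      rw [Nv0, Na0, sub_mul, div_mul_cancel₀ _ hJp.ne']
      exact NFv.d l hl)
  have hδ0 : 0 ≤ δ * u * J := (CH_nonneg h0 _ _).trans g.sa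
  have hC0 : 0 ≤ (C : ℝ) * (Real.log (8 * k + 5) + Cg * Y) := by
    have e1 : 0 ≤ (C : ℝ) * (Cg * Y) := by positivity
    linarith
  have hsa := cod_path (F := F) (c := c) (k := k) (H := H) (w := ⌊w * J⌋₊) hcl
    (n := fun l => Na l 0) (n' := fun l => sn l w + (u + 100 * y)) (v := fun l => Na l 1)
    (v' := fun l => sn l w - w + (u + 100 * y)) (fun l hl => by
      obtain ⟨i1, i2, i3⟩ := Nn.li hl
      show sn l w + (u + 100 * y) ≤ Na l 0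
      rw [Na0]
      unfold nnF
      linarith) (fun l hl => hlJ (by
      show (sn l w - w + (u + 100 * y)) * (J : ℝ) ≤ Na l 1 * J
      have e1 := a1J l
      have e2 := NFv.u1 l hl
      linarith)) g.sa
  have hnl := g.nl (nfF k sn w x'' φ) Pe' (fun l hl => by
    have e1 := Nn.neP hl
    have e2 := r1 l hl
    have e3 := r2 l hl
    have e4 : (3 * T + 1) * u = 3 * T * u + u := by ring
    have e5 : (3 * T + 1 + k + 1) * u = (3 * T + k + 2) * u := by ring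
    rw [e4] at e2
    rw [e5] at e3
    refine ⟨e1.1, e1.2, ?_, ?_⟩
    · rw [hPe']
      show sn l w - w + 3 * T * u ≤ (Pr' l : ℝ)
      linarith
    · rw [hPe']
      exact e3)
  have hMc : ∀ ω, A ω → Mc F W' Xt (tp W') ω = fun v : Fin C => ⌊(2 : ℝ) ^ Xt v * TV ω v⌋ :=
    fun ω hω => by
      funext v
      unfold Mc
      rw [g.tv W' hw₁W WJ ω hω v]
  have hMn : ∀ ω, A ω → Mn F W' (tp W') ω = fun v : Fin C => ⌊TV ω v⌋ := fun ω hω => by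
    funext v
    unfold Mn
    rw [g.tv W' hw₁W WJ ω hω v]
  have hnl' : MI (Pool.Agent.H49.Ent.cond F.p A True) (cR F A j) (Mc F W' Xt (tp W'))
      (fun ω => (Mn F W' (tp W') ω, (sd ω, ((jh F c k ⌊w * J⌋₊ H (nfF k sn w x'' φ) ω,
        jv F c k ⌊w * J⌋₊ H Pe' ω), (cR F A w₁ ω, F.W ω))))) ≤ δ * u * J := by
    refine le_trans (le_of_eq (mi_eqv h0 _ ?_ ?_ ?_ ?_)) hnl
    · intro ω ν hω hν e
      rw [hMc ω (hsup ω hω), hMc ν (hsup ν hν)] at e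
      exact e
    · intro ω ν hω hν e
      rw [hMc ω (hsup ω hω), hMc ν (hsup ν hν)]
      exact e
    · intro ω ν hω hν e
      simp only [Prod.mk.injEq] at e ⊢
      rw [hMn ω (hsup ω hω), hMn ν (hsup ν hν)] at e
      exact e
    · intro ω ν hω hν e
      simp only [Prod.mk.injEq] at e ⊢
      rw [hMn ω (hsup ω hω), hMn ν (hsup ν hν)]
      exact e
  have VS := V1.side (Rj := cR F A j) (Rx := cR F A x) (sd := sd) (N1 := Mn F W' (tp W'))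
    (N2 := Mc F W' Xt (tp W'))
    ((ch_det h0 (dR W.wj hj1)).le.trans c5)
    ((ch_det h0 (det_cR2 (fun _ h => h) (W.jx.trans W.xa) ha1 hsup)).le.trans c5)
    ((ch_det h0 (det_cR2 (fun _ h => h) W.xa ha1 hsup)).le.trans c5)
    (hsa.trans c7) (N1f.trans c8)
    (N2f.trans (by
      have e1 : 0 ≤ (k : ℝ) * (300 * y * J * Real.log 2 + Real.log 5) := by
        have : 0 ≤ Real.log 2 := (Real.log_pos one_lt_two).le
        have : 0 ≤ Real.log 5 := (Real.log_pos (by norm_num)).le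
        positivity
      linarith)) (hnl'.trans (by linarith))
  have hout := VS.out
  -- the far digits
  have hnbf : k * (X * Real.log 2) - κ ≤ CH (Pool.Agent.H49.Ent.cond F.p A True)
      (Vv F c k ⌊w * J⌋₊ H fun l => nb l * J)
      (fun ω => (jh F c k ⌊w * J⌋₊ H (fun l => Na l 0) ω, (cR F A a ω, F.W ω))) := by
    have e1 := H3 _ _ _ LD1 X hFl.x2
    rw [vv_if, jh_if, ← fNa0] at e1
    have e2 := vv_up hcl (F := F) (c := c) (k := k) (H := H) (w := ⌊w * J⌋₊) (n := nb)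
      (n' := nbP sn w u y ξ) (d := y * J) (by positivity) (fun l hl => by
        have e3 := NFv.nb2 l hl
        rw [sub_mul, hnb]
        show nbP sn w u y ξ l * J - ((γ l + q + X : ℕ) : ℝ) / J * J ≤ y * J
        rw [div_mul_cancel₀ _ hJp.ne']
        exact e3)
      (fun ω => (jh F c k ⌊w * J⌋₊ H (fun l => Na l 0) ω, (cR F A a ω, F.W ω)))
    linarith
  have hnbk : CH (Pool.Agent.H49.Ent.cond F.p A True)
      (Vv F c k ⌊w * J⌋₊ H fun l => nb l * J) (fun ω => (cR F A x' ω, F.W ω)) ≤ κ := by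
    have V0 := H1 _ _ _ LD1 (fun l => Na l 1) (fun l hl => by
      have e1 := a1J l
      have e2 := NFv.f1 l hl
      linarith) _ le_rfl
    have V0p := V0.px
    rw [jh_if] at V0p
    have e0 : CH (Pool.Agent.H49.Ent.cond F.p A True)
        (Vv F c k ⌊w * J⌋₊ H fun l => nb l * J) (fun ω => (cR F A x' ω, F.W ω)) ≤
        CH (Pool.Agent.H49.Ent.cond F.p A True) (jh F c k ⌊w * J⌋₊ H nb)
        (fun ω => (cR F A x' ω, F.W ω)) := CH_mono_left h0 fun ω ν hω hν e =>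
      jh_vv nb ω ν hω hν (Prod.ext_iff.mp e).1
    have e1 := CH_le_add h0 (jh F c k ⌊w * J⌋₊ H nb)
      (jh F c k ⌊w * J⌋₊ H (nfF k sn w x' φ)) (fun ω => (cR F A x' ω, F.W ω))
    have e2 := jh_few hcl (F := F) (c := c) (w := ⌊w * J⌋₊) (H := H) (n := nfF k sn w x' φ)
      (n' := nb) (fun l hl => hlJ (by
        have e3 := NFv.nbf l hl
        rw [hnb]
        show ((γ l + q + X : ℕ) : ℝ) / J * J ≤ _
        rw [div_mul_cancel₀ _ hJp.ne']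
        exact e3))
      (fun ω => (jh F c k ⌊w * J⌋₊ H (nfF k sn w x' φ) ω, (cR F A x' ω, F.W ω)))
      (fun ω ν _ _ e => (Prod.ext_iff.mp e).1)
    linarith
  have hvf := VS.vf hnbk hnbf
  -- the codes
  have K1 : ∀ l < k, CH (Pool.Agent.H49.Ent.cond F.p A True)
      (Pool.AVG71.cod F W' 2 K (2 ^ (γ l + q + (X + mm))) (c l)
        (fun s => upw ⌊w * J⌋₊ W' s) (fun s => H s l)) F.W ≤ θ * u * J := by
    intro l hl
    have e1 := H4 _ _ _ LD1 W' hwW WJ l hl (γ l + q + (X + mm)) (NFv.k9a l hl)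
    rw [hif_fun hl, ← hK'] at e1
    exact e1
  have hff : ∀ l < k, sn l w + T * u ≤ Nf l 0 ∧ sn l w - w + T * u ≤ Nf l 1 := fun l hl => by
    rw [Nf0, Nf1, hP]
    refine ⟨NFv.ff l hl, ?_⟩
    have e1 := p1 l hl
    show sn l w - w + T * u ≤ (Pq l : ℝ)
    linarith
  have hdj := cod_path (F := F) (c := c) (k := k) (H := H) (w := ⌊w * J⌋₊) hcl
    (n := fun l => Nf l 0) (n' := fun l => sn l w + T * u) (v := fun l => Nf l 1)
    (v' := fun l => sn l w - w + T * u) (fun l hl => (hff l hl).1) (fun l hl => (hff l hl).2)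
    (g.dj W' hw₁W hW2)
  have hjt := g.jt W' hw₁W hW2
  have hrow : ∀ E' : Set F.Ω, π₁ ≤ Pr (Pool.Agent.H49.Ent.cond F.p A True) E' →
      CH (rs (Pool.Agent.H49.Ent.cond F.p A True) E') (fun ω => Mc F W' Xt (tp W') ω i0)
        (fun ω => ((Mn F W' (tp W') ω i0, oth i0 (Mc F W' Xt (tp W') ω)),
          (Vv F c k ⌊w * J⌋₊ H (fun l => nb l * J) ω,
            ((sd ω, (cR F A w₁ ω, F.W ω)), ())))) ≤
        ((1 - h) * ξ * u * Real.log 2 + δ * u) * J := by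
    intro E' hE'
    obtain ⟨B', hB'⟩ : ∃ B' : F.Ω → Prop, B' = fun ω => A ω ∧ ω ∈ E' := ⟨_, rfl⟩
    have r1 : rs (Pool.Agent.H49.Ent.cond F.p A True) E' =
        Pool.Agent.H49.Ent.cond F.p B' True := by
      rw [hB']
      exact Pool.RPL.cond_and_ev F.p (E := fun ω => ω ∈ E') hA.ne'
    have r2 : π₀ * Pe F.p A ≤ Pe F.p B' := by
      have k1 : Pr (Pool.Agent.H49.Ent.cond F.p A True) E' = Pe F.p B' / Pe F.p A := by
        rw [hB']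
        exact Pe_cond (fun ω => ω ∈ E')
      rw [k1, le_div_iff₀ hA] at hE'
      exact (mul_le_mul_of_nonneg_right hπ01 hA.le).trans hE'
    have r3 : Sub B' A := fun ω hω => by
      rw [hB'] at hω
      exact hω.1
    have hPB' : 0 < Pe F.p B' := lt_of_lt_of_le (mul_pos hπ₀ hA) r2
    rw [r1, hnbJ]
    have hB0 := (isLaw_cond F.isLaw hPB').nonneg
    refine le_trans (le_of_eq (ch_eqv hB0 ?_ ?_ ?_ ?_)) (g.row B' r3 r2)
    · intro ω ν hω hν e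
      have e1 : Mc F W' Xt (tp W') ω i0 = Mc F W' Xt (tp W') ν i0 := e
      rw [hMc ω (r3 ω (of_cond_pos hω)), hMc ν (r3 ν (of_cond_pos hν))] at e1
      simp only [g.x0] at e1
      exact e1
    · intro ω ν hω hν e
      show Mc F W' Xt (tp W') ω i0 = Mc F W' Xt (tp W') ν i0
      rw [hMc ω (r3 ω (of_cond_pos hω)), hMc ν (r3 ν (of_cond_pos hν))]
      simp only [g.x0]
      exact e
    · intro ω ν hω hν e
      simp only [Prod.mk.injEq] at e ⊢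
      rw [hMc ω (r3 ω (of_cond_pos hω)), hMc ν (r3 ν (of_cond_pos hν)),
        hMn ω (r3 ω (of_cond_pos hω)), hMn ν (r3 ν (of_cond_pos hν))] at e
      exact ⟨e.1, e.2.1, e.2.2.1⟩
    · intro ω ν hω hν e
      simp only [Prod.mk.injEq] at e ⊢
      rw [hMc ω (r3 ω (of_cond_pos hω)), hMc ν (r3 ν (of_cond_pos hν)),
        hMn ω (r3 ω (of_cond_pos hω)), hMn ν (r3 ν (of_cond_pos hν))]
      exact ⟨e.1, e.2.1, e.2.2, trivial⟩
  have hsl : Det (Pool.Agent.H49.Ent.cond F.p A True) (slam F W') sd := fun ω ν hω hν e =>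
    g.sL ω ν hω hν (by rw [← upw_slam F hw₁W WJ ω, ← upw_slam F hw₁W WJ ν, e])
  have SE : SdEC F c k q ⌊w * J⌋₊ W' X K Xt i0 γ A G₀ H gg (tp W') (cR F A w₁) sd Cj Cx
      (cR F A j) (cR F A x) (fun _ => ()) (Pool.Agent.H49.Ent.cond F.p A True) Nf Na Nu nb π₁
      (2 ^ (Cg * Y)) (((1 - h) * ξ * u * Real.log 2 + δ * u) * J) (45 * κ) :=
    { tL := g.tL W' hw₁W WJ
      sL := hsl
      dP := fun ω hω v => g.dP W' ω (hsup ω hω) v
      x0 := g.x0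
      xX := g.xX
      grd := hgp
      chj := (ch_det h0 g.hj).le.trans (by linarith)
      chx := (ch_det h0 g.hx).le.trans (by linarith)
      zx := (ch_det h0 (dR w5 hx1)).le.trans (by linarith)
      out := ⟨hout.mj.trans (by linarith), hout.mx.trans (by linarith)⟩
      dj := hdj.trans (by linarith)
      jt := by
        rw [fNu0, fNu1]
        exact hjt.trans (by linarith)
      vf := le_trans (by linarith) hvf
      row := hrow }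
  have hHF := HF (D := D') (mm := mm) (U := 2 ^ (Cg * Y)) (Nv := Nv) (e₁ := θ * u * J)
    (d := 300 * y * J) (ψ := θ * u) (ε₀ := 1)
    hcl hsup hwW NFv.WX g.deg hK g.cl hmmU (det_slam hw₁W WJ hsup) SE (fun _ _ _ _ _ => rfl)
    (fun l hl => by rw [Na0]; exact NFv.n0 l hl) (fun l _ => (a1J l).le)
    (fun l hl => by rw [Nu0]; exact NFv.u0 l hl) (fun l hl => by rw [Nu1]; exact NFv.u1 l hl) K1
    (fun l hl => by rw [Nf0]; exact NFv.f0 l hl) (fun l hl => by rw [Nf1]; exact NFv.f1 l hl)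
    (fun l _ => by rw [Nv0, div_mul_cancel₀ _ hJp.ne'])
    (fun l _ => by rw [Nv1, div_mul_cancel₀ _ hJp.ne', sub_add_cancel])
    (fun l => by rw [Nv1, Na1]) (by positivity)
    (fun l hl => by
      rw [Nv0, Na0, sub_mul, div_mul_cancel₀ _ hJp.ne']
      exact NFv.d l hl)
    (fun l _ => by
      rw [hnb]
      show _ ≤ ((γ l + q + X : ℕ) : ℝ) / J * J
      rw [div_mul_cancel₀ _ hJp.ne'])
    (fun l _ => by
      rw [hnb]
      show ((γ l + q + X : ℕ) : ℝ) / J * J ≤ _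
      rw [div_mul_cancel₀ _ hJp.ne']
      push_cast
      have : (0 : ℝ) ≤ mm := Nat.cast_nonneg _
      linarith)
    TW (by exact_mod_cast c0) (by positivity) c1 (by rw [hmmR]; exact c2) c4
  obtain ⟨mu, hmu1, -, hmu2, -⟩ := hHF
  exact ⟨W', mu, hw₁W, hW2, hmu1, by rw [← hX]; exact hmu2⟩

/-- **(V0P)** -/
theorem v0p : V0pStmt := v0p_of_c v0pC

end Pool.VP83
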