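import Pool.Agent.H83.VP.Num
import Pool.Agent.H83.VG.Cst

/-!
# The small constants
-/

set_option autoImplicit false

namespace Pool.VP83

open Finset Real
open Pool.VG83 (A1 A1_pos)

/-- The factor of the errors. -/
noncomputable def A2 (k C : ℕ) : ℝ := 50 * A1 k + 301 * k + 2 * C + 10

theorem A2_pos (k C : ℕ) : 0 < A2 k C := by
  have := A1_pos k
  unfold A2
  positivity

/-- The sum of the constants. -/
noncomputable def Z2 (k C Cg X₀ : ℕ) (C₁ : ℝ) : ℝ :=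
  60 * (k * Real.log 5) + C * Real.log (8 * k + 5) + C₁ + 20 + X₀ + 4 * ((Cg : ℝ) + 1)

theorem Z2_le (k C Cg X₀ : ℕ) {C₁ : ℝ} (hC₁ : 0 ≤ C₁) : 0 ≤ (k : ℝ) * Real.log 5 ∧
    0 ≤ (C : ℝ) * Real.log (8 * k + 5) ∧ 60 * (k * Real.log 5) ≤ Z2 k C Cg X₀ C₁ ∧
    C * Real.log (8 * k + 5) ≤ Z2 k C Cg X₀ C₁ ∧ C₁ ≤ Z2 k C Cg X₀ C₁ ∧
    20 ≤ Z2 k C Cg X₀ C₁ ∧ (X₀ : ℝ) + 1 ≤ Z2 k C Cg X₀ C₁ ∧
    4 * ((Cg : ℝ) + 1) + 1 ≤ Z2 k C Cg X₀ C₁ := by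
  have hl5 : 0 < Real.log 5 := Real.log_pos (by norm_num)
  have hk : (0 : ℝ) ≤ k := Nat.cast_nonneg k
  have hl8 : 0 < Real.log (8 * k + 5) := Real.log_pos (by linarith)
  have h1 : 0 ≤ (k : ℝ) * Real.log 5 := by positivity
  have h2 : 0 ≤ (C : ℝ) * Real.log (8 * k + 5) := by positivity
  have h3 : (0 : ℝ) ≤ X₀ := Nat.cast_nonneg _
  have h4 : (0 : ℝ) ≤ Cg := Nat.cast_nonneg _
  unfold Z2
  refine ⟨h1, h2, ?_, ?_, ?_, ?_, ?_, ?_⟩ <;> linarith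

/-- **The error of the laws.** -/
noncomputable def κP (k C Cg : ℕ) (y φ φ₀ u θ δ J Y : ℝ) : ℝ :=
  50 * ((k * (35 * y) + 20 * (k : ℝ) ^ 2 * φ + φ₀ * u + θ * u) * J + k * Real.log 5) +
    (δ * u * J + 2 * (k * Real.log 5)) + (k * (301 * y * J) + 2 * (k * Real.log 5)) +
    C * (Real.log (8 * k + 5) + Cg * Y)

/-- **The small constants.** -/
structure CP (k C : ℕ) (ι ξ δ θ : ℝ) : Prop where
  ι0 : 0 < ι
  ξ0 : 0 < ξ
  ξ1 : ξ ≤ 1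
  δ0 : 0 < δ
  θ0 : 0 < θ
  t0 : 2000 * θ ≤ ξ
  t1 : 400 * δ ≤ ι * ξ
  t2 : 400 * (A2 k C + k + 10) * θ ≤ ι * ξ

theorem cp_ex (k C : ℕ) {ι ξ : ℝ} (hι : 0 < ι) (hξ : 0 < ξ) (hξ1 : ξ ≤ 1) :
    ∃ δ θ : ℝ, CP k C ι ξ δ θ := by
  have hA := A2_pos k C
  have hk : (0 : ℝ) ≤ k := Nat.cast_nonneg k
  obtain ⟨a, ha, ha0⟩ : ∃ a : ℝ, a = 400 * (A2 k C + k + 10) ∧ 0 < a :=
    ⟨_, rfl, by positivity⟩
  refine ⟨ι * ξ / 400, min (ξ / 2000) (ι * ξ / a), hι, hξ, hξ1, by positivity,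
    by positivity, ?_, by linarith, ?_⟩
  · have := min_le_left (ξ / 2000) (ι * ξ / a)
    linarith
  · rw [← ha]
    calc a * min (ξ / 2000) (ι * ξ / a) ≤ a * (ι * ξ / a) :=
          mul_le_mul_of_nonneg_left (min_le_right _ _) ha0.le
      _ = ι * ξ := by field_simp

namespace CP

variable {k C : ℕ} {ι ξ δ θ : ℝ}

/-- **All errors are small.** -/
theorem le (H : CP k C ι ξ δ θ) {Cg X₀ : ℕ} {C₁ u J X y φ φ₀ h Y : ℝ} (hC₁ : 0 ≤ C₁)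
    (hu : 0 < u) (hJ : 0 ≤ J) (hX : ξ * u * J - 1 ≤ X) (hy : 0 ≤ y) (hyu : y ≤ φ₀ * u)
    (hφ0 : 0 ≤ φ) (hφy : φ ≤ y) (hφ₀ : φ₀ = θ / (1000 * ((Cg : ℝ) + 1)))
    (hZ : Z2 k C Cg X₀ C₁ ≤ θ * u * J) (hh : 0 < h) (hh1 : h ≤ 1) (hY0 : 0 ≤ Y)
    (hY : Y ≤ 1000 * y * J + 4) :
    (X₀ : ℝ) ≤ X ∧
    45 * κP k C Cg y φ φ₀ u θ δ J Y + k * (300 * y * J * Real.log 2 + Real.log 5) +
      k * (θ * u * J) + C₁ + θ * u * J ≤ ι * X ∧
    ((Cg : ℝ) + 1) * Y + 1 ≤ ι * X ∧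
    ((Cg : ℝ) + 1) * Y + 1 ≤ u / 2 * J ∧
    ((1 - h) * ξ * u * Real.log 2 + δ * u) * J ≤ (1 - h) * X * Real.log 2 + ι * X ∧
    0 ≤ κP k C Cg y φ φ₀ u θ δ J Y ∧
    50 * ((k * (35 * y) + 20 * (k : ℝ) ^ 2 * φ + φ₀ * u + θ * u) * J + k * Real.log 5) +
      k * Real.log 5 ≤ κP k C Cg y φ φ₀ u θ δ J Y ∧
    δ * u * J + 2 * (k * Real.log 5) ≤ κP k C Cg y φ φ₀ u θ δ J Y ∧
    k * (300 * y * J * Real.log 2 + Real.log 5) + C * (Real.log (8 * k + 5) + Cg * Y) ≤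
      κP k C Cg y φ φ₀ u θ δ J Y ∧
    (20 * (k : ℝ) ^ 2 * φ + θ * u) * J + k * (y * J * Real.log 2 + Real.log 5) ≤
      κP k C Cg y φ φ₀ u θ δ J Y := by
  have hι := H.ι0
  have hξ := H.ξ0
  have hθ := H.θ0
  have hk : (0 : ℝ) ≤ k := Nat.cast_nonneg k
  have hC : (0 : ℝ) ≤ C := Nat.cast_nonneg C
  have hCg : (0 : ℝ) ≤ Cg := Nat.cast_nonneg Cg
  have hA := A1_pos k
  have hl2 : 0 < Real.log 2 := Real.log_pos one_lt_two
  have hl2' : Real.log 2 ≤ 1 := by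
    have := Real.log_two_lt_d9
    linarith
  obtain ⟨z1, z2, z3, z4, z5, z6, z7, z8⟩ := Z2_le k C Cg X₀ hC₁
  have hφ₀0 : 0 < φ₀ := by rw [hφ₀]; positivity
  have hφ₀m : ((Cg : ℝ) + 1) * (1000 * φ₀) = θ := by
    rw [hφ₀]
    field_simp
  have hφ₀θ : 1000 * φ₀ ≤ θ := by
    rw [← hφ₀m]
    refine le_mul_of_one_le_left (by positivity) (by linarith)
  obtain ⟨V, hV⟩ : ∃ V : ℝ, V = θ * u * J := ⟨_, rfl⟩
  obtain ⟨U, hU⟩ : ∃ U : ℝ, U = u * J := ⟨_, rfl⟩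
  have hU0 : 0 ≤ U := by rw [hU]; positivity
  have hV0 : 0 ≤ V := by rw [hV]; positivity
  have hVU : V = θ * U := by rw [hV, hU]; ring
  have hθuJ : θ * u * J = V := hV.symm
  rw [hθuJ] at hZ ⊢
  have yU : y * J ≤ φ₀ * U := by
    rw [hU, ← mul_assoc]
    exact mul_le_mul_of_nonneg_right hyu hJ
  have φU : φ * J ≤ φ₀ * U := le_trans (mul_le_mul_of_nonneg_right hφy hJ) yU
  have φ₀V : φ₀ * U ≤ V := by
    rw [hVU]
    exact mul_le_mul_of_nonneg_right (by linarith) hU0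
  have yV : y * J ≤ V := yU.trans φ₀V
  have φV : φ * J ≤ V := φU.trans φ₀V
  have tU : 2000 * V ≤ ξ * U := by
    rw [hVU]
    have := mul_le_mul_of_nonneg_right H.t0 hU0
    linarith
  have eX : ξ * u * J = ξ * U := by rw [hU]; ring
  rw [eX] at hX
  have X1 : ξ * U / 2 ≤ X := by linarith
  have X2 : ι * ξ * U / 2 ≤ ι * X := by
    have := mul_le_mul_of_nonneg_left X1 hι.le
    linarith
  have dU : 400 * (δ * U) ≤ ι * ξ * U := by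
    have e1 := mul_le_mul_of_nonneg_right H.t1 hU0
    linarith
  have dV : 400 * (A2 k C + k + 10) * V ≤ ι * ξ * U := by
    have e1 := mul_le_mul_of_nonneg_right H.t2 hU0
    rw [hVU]
    linarith
  have kV0 : 0 ≤ (k : ℝ) * V := by positivity
  have kV2 : 0 ≤ (k : ℝ) ^ 2 * V := by positivity
  have CV0 : 0 ≤ (C : ℝ) * V := by positivity
  have δU0 : 0 ≤ δ * U := mul_nonneg H.δ0.le hU0
  have eδ : δ * u * J = δ * U := by rw [hU]; ring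
  have e1 : (k : ℝ) * (y * J) ≤ k * V := mul_le_mul_of_nonneg_left yV hk
  have e1' : 0 ≤ (k : ℝ) * (y * J) := by positivity
  have e2 : (k : ℝ) ^ 2 * (φ * J) ≤ k ^ 2 * V := mul_le_mul_of_nonneg_left φV (by positivity)
  have e2' : 0 ≤ (k : ℝ) ^ 2 * (φ * J) := by positivity
  have e3' : 0 ≤ φ₀ * U := by positivity
  have eY : ((Cg : ℝ) + 1) * Y + 1 ≤ 2 * V := by
    have f1 : ((Cg : ℝ) + 1) * Y ≤ (Cg + 1) * (1000 * y * J + 4) :=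
      mul_le_mul_of_nonneg_left hY (by linarith)
    have f2 : ((Cg : ℝ) + 1) * (1000 * (y * J)) ≤ (Cg + 1) * (1000 * (φ₀ * U)) :=
      mul_le_mul_of_nonneg_left (by linarith) (by linarith)
    have f3 : ((Cg : ℝ) + 1) * (1000 * (φ₀ * U)) = V := by
      rw [hVU, ← hφ₀m]
      ring
    linarith
  have eY2 : (C : ℝ) * (Cg * Y) ≤ C * (2 * V) := mul_le_mul_of_nonneg_left (by linarith) hC
  have eY2' : 0 ≤ (C : ℝ) * (Cg * Y) := by positivity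
  -- the error of the law
  obtain ⟨κ, hκ⟩ : ∃ κ : ℝ, κ = κP k C Cg y φ φ₀ u θ δ J Y := ⟨_, rfl⟩
  have hκ' : κ = 50 * (35 * (k * (y * J)) + 20 * ((k : ℝ) ^ 2 * (φ * J)) + φ₀ * U + V) +
      50 * (k * Real.log 5) + (δ * U + 2 * (k * Real.log 5)) +
      (301 * (k * (y * J)) + 2 * (k * Real.log 5)) +
      (C * Real.log (8 * k + 5) + C * (Cg * Y)) := by
    rw [hκ, hU, hV]
    unfold κP
    ring
  have eκ : κ ≤ A2 k C * V + δ * U := by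
    have e4 : A2 k C * V = 1750 * (k * V) + 1000 * ((k : ℝ) ^ 2 * V) + 100 * V +
        301 * (k * V) + C * (2 * V) + 10 * V := by
      unfold A2 A1
      ring
    rw [e4, hκ']
    linarith
  have ξU : ξ * U ≤ U := by
    have := mul_le_mul_of_nonneg_right H.ξ1 hU0
    linarith
  have l1 : k * (300 * y * J * Real.log 2 + Real.log 5) ≤ 300 * (k * (y * J)) +
      k * Real.log 5 := by
    have : (k : ℝ) * (y * J) * Real.log 2 ≤ k * (y * J) * 1 :=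
      mul_le_mul_of_nonneg_left hl2' e1'
    linarith
  have l2 : k * (y * J * Real.log 2 + Real.log 5) ≤ k * (y * J) + k * Real.log 5 := by
    have : (k : ℝ) * (y * J) * Real.log 2 ≤ k * (y * J) * 1 :=
      mul_le_mul_of_nonneg_left hl2' e1'
    linarith
  rw [← hκ]
  refine ⟨by linarith, ?_, ?_, ?_, ?_, ?_, ?_, ?_, ?_, ?_⟩
  · linarith
  · have h1 : 0 ≤ A2 k C * V := mul_nonneg (A2_pos k C).le hV0
    linarith
  · have : u / 2 * J = U / 2 := by rw [hU]; ring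
    rw [this]
    linarith
  · have f1 : ((1 - h) * ξ * u * Real.log 2 + δ * u) * J =
        (1 - h) * Real.log 2 * (ξ * U) + δ * U := by
      rw [hU]
      ring
    have f2 : (1 - h) * Real.log 2 * (ξ * U) ≤ (1 - h) * Real.log 2 * (X + 1) :=
      mul_le_mul_of_nonneg_left (by linarith) (mul_nonneg (by linarith) hl2.le)
    have f3 : (1 - h) * Real.log 2 ≤ 1 := by nlinarith
    have h1 : 0 ≤ A2 k C * V := mul_nonneg (A2_pos k C).le hV0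
    rw [f1]
    linarith
  · rw [hκ']
    linarith
  · have f1 : (k * (35 * y) + 20 * (k : ℝ) ^ 2 * φ + φ₀ * u + θ * u) * J =
        35 * (k * (y * J)) + 20 * ((k : ℝ) ^ 2 * (φ * J)) + φ₀ * U + V := by
      rw [hU, hV]
      ring
    rw [f1, hκ']
    linarith
  · rw [eδ, hκ']
    linarith
  · rw [hκ']
    linarith
  · have f1 : (20 * (k : ℝ) ^ 2 * φ + θ * u) * J = 20 * ((k : ℝ) ^ 2 * (φ * J)) + V := by
      rw [hV]
      ring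
    rw [f1, hκ']
    linarith

end CP

end Pool.VP83
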