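import Pool.Agent.H83.VP.Cst
import Pool.Agent.H83.VG.Evt
import Pool.Agent.H83.VG.Ec
import Pool.Agent.H64.VS.Jp

/-!
# Several targets with arbitrary paths and a side path: one event

`grdP_of`: the gradients for the engine. `n1_ev`, `n2_ev`: the near and far digits of the targets are
few bits given the path of the contact coordinates and a record. `vside_ev`: the law with the side
path. `vv_up`: more digits.
-/

set_option autoImplicit false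

namespace Pool.VP83

open Finset Real MvPolynomial
open Pool.Agent.H49.Ent Pool.Agent.H32.Dense
open Pool.STK hiding pr2
open Pool.KA Pool.KSAT Pool.K2S Pool.PB Pool.S6C
open Pool.GEN Pool.CHT Pool.CHX Pool.ISO Pool.LA91 Pool.AVG71 Pool.AVG5 Pool.D2F2 Pool.AVG57
open Pool.RCD Pool.AVG96 Pool.V0F Pool.V0S Pool.OWN68
open Pool.D2R (hgt)
open Pool.KVA (MI)
open Pool.FS21 (oth)
open Pool.PB.Trl (rt rt_mem t_rt)
open Pool.VS64 (GrdP hgt_grd hgt_grd_near)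
open Pool.VG83 (ch_to ch_det ch_pt jh_few jv_few path_few cod_path det_cR2)

variable {m J : ℕ} {F : Fam m J}

section

variable {c : ℕ → Fin m} {k D' K q X Cg : ℕ} {sn : ℕ → ℝ → ℝ} {w u y φ ξ T : ℝ} {w₁ : ℚ}
  {j x a h π₀ δ : ℝ} {A : F.Ω → Prop}
  {G₀ : PtT F → ℕ → MvPolynomial (Option (Fin m)) ℝ}
  {H : LnT F → ℕ → MvPolynomial (Option (Fin m)) ℝ} {γ : ℕ → ℕ} {gg : F.Ω → Fin k → ℝ} {C : ℕ}
  {Xt : Fin C → ℕ} {i0 : Fin C} {TV : F.Ω → Fin C → ℝ}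
  {tp : ℕ → F.Ω → Fin C → Polynomial ℝ} {χ₁ χ₂ σ : Type} {Cj : F.Ω → χ₁} {Cx : F.Ω → χ₂}
  {sd : F.Ω → σ}

/-- The time and the context from the record, the side path and the time. -/
theorem ctx_key {W : ℕ} (hWJ : W ≤ J) {ζ : Type} {zw : F.Ω → ζ} {ω ν : F.Ω} (h1 : F.W ω = F.W ν)
    (h2 : zw ω = zw ν) (h3 : sd ω = sd ν) :
    rt F W ω = rt F W ν ∧ ctx F W zw sd ω = ctx F W zw sd ν := by
  obtain ⟨h4, h5⟩ := Prod.ext_iff.mp h1
  have h4' : F.T ω = F.T ν := h4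
  have h5' : F.Z ω = F.Z ν := h5
  refine ⟨?_, ?_⟩
  · rw [← tw_rt F hWJ, ← tw_rt F hWJ]
    exact tw_of_T F h4'
  · unfold ctx
    have h6 : (slam F W ω).2 = (slam F W ν).2 := by
      show (F.Z ω, F.T1 W ω) = (F.Z ν, F.T1 W ν)
      unfold Fam.T1
      rw [h4', h5']
    rw [h2, h3, h6]

/-- The last part of the context is a function of the context. -/
theorem ctx_T {W : ℕ} {ζ : Type} {zw : F.Ω → ζ} {p : F.Ω → ℝ} :
    Det p (ctx F W zw sd) (F.T1 W) := fun _ _ _ _ hh =>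
  (Prod.ext_iff.mp (Prod.ext_iff.mp (Prod.ext_iff.mp hh).2).1).2

/-- **The gradients for the engine.** -/
theorem grdP_of {W : ℕ} {ζ : Type} {zw : F.Ω → ζ} {U : ℝ}
    (g : GrTC F c k q X γ U A G₀ Xt i0 gg TV sd Cj Cx)
    (tv : ∀ ω, A ω → ∀ v, (tp W ω v).eval (rt F W ω) = TV ω v) :
    GrdP F c (mv0 k) Xt q W X γ U A G₀ (ggC i0 gg) (tp W) (ctx F W zw sd) Cj Cx where
  U0 := g.U0
  bm := fun ω hω v l => by
    unfold ggC
    split_ifs
    · exact g.bm ω hω l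
    · rw [abs_zero]
      exact g.U0
  bj := fun ω ν h1 h2 h3 h4 h5 h6 v l => by
    have e1 := g.bj ω ν h1 h2 h3 (Prod.ext_iff.mp (Prod.ext_iff.mp h4).2).2 h5
      (fun i hi => h6 ⟨i, hi⟩) l
    unfold ggC
    split_ifs
    · exact e1
    · rw [sub_zero, abs_zero]
      have := g.U0
      positivity
  bx := fun ω ν h1 h2 h3 h4 h5 h6 v l => by
    have e1 := g.bx ω ν h1 h2 h3 (Prod.ext_iff.mp (Prod.ext_iff.mp h4).2).2 h5
      (fun i hi => h6 ⟨i, hi⟩) l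
    unfold ggC
    split_ifs
    · exact e1
    · rw [sub_zero, abs_zero]
      have := g.U0
      positivity
  nx := fun ω ν h1 h2 h3 h4 h5 h6 v => by
    rw [tv ω h1 v, tv ν h2 v]
    exact g.nx ω ν h1 h2 h3 (Prod.ext_iff.mp (Prod.ext_iff.mp h4).2).2 h5
      (fun i hi => h6 ⟨i, hi⟩) v

/-- The logarithm of the number of the digits. -/
theorem log_le {Cg Y : ℕ} {b : ℝ} (hb0 : 0 ≤ b) (hb : b ≤ 4 * k + 1) :
    Real.log (2 * (b * 2 ^ (Cg * Y) + 1) + 1) ≤ Real.log (8 * k + 5) + Cg * Y := by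
  have hk : (0 : ℝ) ≤ k := Nat.cast_nonneg k
  have h1 : (1 : ℝ) ≤ 2 ^ (Cg * Y) := one_le_pow₀ (by norm_num)
  have h2 : 2 * (b * (2 : ℝ) ^ (Cg * Y) + 1) + 1 ≤ (8 * k + 5) * 2 ^ (Cg * Y) := by
    have : b * (2 : ℝ) ^ (Cg * Y) ≤ (4 * k + 1) * 2 ^ (Cg * Y) :=
      mul_le_mul_of_nonneg_right hb (by positivity)
    linarith
  have h3 := Real.log_le_log (by positivity) h2
  rw [Real.log_mul (by positivity) (by positivity), Real.log_pow] at h3
  push_cast at h3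
  have h4 : Real.log 2 ≤ 1 := by
    have := Real.log_two_lt_d9
    linarith
  have h5 : (Cg : ℝ) * Y * Real.log 2 ≤ Cg * Y * 1 := mul_le_mul_of_nonneg_left h4 (by positivity)
  linarith

/-- **The far digits of the targets.** -/
theorem n2_ev {W Y : ℕ} {ζ ρ : Type} {zw : F.Ω → ζ} {R : F.Ω → ρ} {p : F.Ω → ℝ} {w : ℕ}
    (hp : IsLaw p) (hsup : ∀ ω, 0 < p ω → A ω) (hWJ : W ≤ J)
    (cl : ∀ ω, A ω → ∀ l < k, G₀ (ptr F J ω) l = H (slam F w ω) l)
    (g : GrdP F c (mv0 k) Xt q W X γ (2 ^ (Cg * Y)) A G₀ (ggC i0 gg) (tp W) (ctx F W zw sd) Cj Cx)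
    (hR : Det p R zw) (hC : Det p R Cx) {N : ℕ → ℕ → ℝ}
    (hN : ∀ l < k, ((γ l + q + X : ℕ) : ℝ) ≤ N l 0 * J) :
    CH p (Mc F W Xt (tp W)) (fun ω => ((jh F c k w H (fun l => N l 0) ω,
      jv F c k w H (fun l => N l 1) ω), (sd ω, (R ω, F.W ω)))) ≤
      C * (Real.log (8 * k + 5) + Cg * Y) := by
  have h0 := hp.nonneg
  have h1 := Pool.LV64.CH_pi h0 (fun ω => (Cx ω, (jetm F c (mv0 k) w H (fun l => N l) ω,
    (rt F W ω, ctx F W zw sd ω)))) C (fun ω v => Mc F W Xt (tp W) ω v) fun v =>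
    (hgt_grd (N := fun l : Fin k => N l) hp hsup hWJ (fun ω hω l => cl ω hω l l.2) g ctx_T
      (fun l => hN l l.2) v).trans (log_le (by positivity) (by
        have : (0 : ℝ) ≤ k := Nat.cast_nonneg k
        linarith))
  refine le_trans ?_ h1
  refine CH_mono_cond h0 fun ω ν hω hν e => ?_
  obtain ⟨e1, e2⟩ := Prod.ext_iff.mp e
  obtain ⟨e3, e4⟩ := Prod.ext_iff.mp e2
  obtain ⟨e5, e6⟩ := Prod.ext_iff.mp e4
  obtain ⟨k1, k2⟩ := ctx_key (W := W) hWJ (zw := zw) (sd := sd) e6 (hR ω ν hω hν e5) e3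
  exact Prod.ext (hC ω ν hω hν e5) (Prod.ext (jhv_jetm N ω ν hω hν e1) (Prod.ext k1 k2))

/-- **The near digits of the targets.** -/
theorem n1_ev {W Y : ℕ} {ζ ρ : Type} {zw : F.Ω → ζ} {R : F.Ω → ρ} {p : F.Ω → ℝ} {w : ℕ}
    (hp : IsLaw p) (hsup : ∀ ω, 0 < p ω → A ω) (hWJ : W ≤ J)
    (cl : ∀ ω, A ω → ∀ l < k, G₀ (ptr F J ω) l = H (slam F w ω) l) (x0 : Xt i0 = X)
    (g : GrdP F c (mv0 k) Xt q W X γ (2 ^ (Cg * Y)) A G₀ (ggC i0 gg) (tp W) (ctx F W zw sd) Cj Cx)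
    (hR : Det p R zw) (hC : Det p R Cx) {N N' : ℕ → ℕ → ℝ} {d : ℝ} (hd0 : 0 ≤ d)
    (hN : ∀ l < k, ((γ l + q : ℕ) : ℝ) ≤ N' l 0 * J)
    (hN1 : ∀ l, N' l 1 = N l 1) (hd : ∀ l < k, (N' l 0 - N l 0) * J ≤ d) :
    CH p (Mn F W (tp W)) (fun ω => ((jh F c k w H (fun l => N l 0) ω,
      jv F c k w H (fun l => N l 1) ω), (sd ω, (R ω, F.W ω)))) ≤
      k * (d * Real.log 2 + Real.log 5) + C * (Real.log (8 * k + 5) + Cg * Y) := by
  have h0 := hp.nonneg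
  have h1 := Pool.LV64.CH_pi h0 (fun ω => (Cx ω, (jetm F c (mv0 k) w H (fun l => N' l) ω,
    (rt F W ω, ctx F W zw sd ω)))) C (fun ω v => Mn F W (tp W) ω v) fun v =>
    (hgt_grd_near (N := fun l : Fin k => N' l) hp hsup hWJ (fun ω hω l => cl ω hω l l.2) g ctx_T
      (fun l => by
        have := hN l l.2
        linarith) v (by
        by_cases hv : v = i0
        · exact Or.inl (by rw [hv, x0])
        · exact Or.inr fun ω _ l => if_neg hv)).trans (log_le (by positivity) le_rfl)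
  obtain ⟨Z, hZ⟩ : ∃ Z : F.Ω → _, Z = fun ω => ((jh F c k w H (fun l => N l 0) ω,
      jv F c k w H (fun l => N l 1) ω), (sd ω, (R ω, F.W ω))) := ⟨_, rfl⟩
  rw [← hZ]
  have h2 := CH_jh hp (F := F) (c := c) (r := k) (w := w) (H := H) (n := fun l => N l 0)
    (n' := fun l => N' l 0) (d := d) hd hd0 Z (fun ω ν _ _ e => by
      rw [hZ] at e
      exact (Prod.ext_iff.mp (Prod.ext_iff.mp e).1).1)
  refine (ch_to h0 h1 (Y' := Z) (d := k * (d * Real.log 2 + Real.log 5)) ?_).trans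
    (le_of_eq (by ring))
  refine le_trans ?_ h2
  refine CH_mono_left h0 fun ω ν hω hν e => ?_
  rw [hZ] at e
  obtain ⟨e0, e7⟩ := Prod.ext_iff.mp e
  obtain ⟨e1, e2⟩ := Prod.ext_iff.mp e7
  obtain ⟨e3, e4⟩ := Prod.ext_iff.mp e2
  obtain ⟨e5, e6⟩ := Prod.ext_iff.mp e4
  obtain ⟨k1, k2⟩ := ctx_key (W := W) hWJ (zw := zw) (sd := sd) e6 (hR ω ν hω hν e5) e3
  refine Prod.ext (hC ω ν hω hν e5) (Prod.ext (jhv_jetm N' ω ν hω hν (Prod.ext e0 ?_))
    (Prod.ext k1 k2))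
  have e8 : (fun l => N' l 1) = fun l => N l 1 := funext hN1
  rw [e8]
  exact (Prod.ext_iff.mp e1).2

/-- The digits of the positions from those in `Fin`. -/
theorem vv_jh (n : ℕ → ℝ) {p : F.Ω → ℝ} {w : ℕ} :
    Det p (Vv F c k w H fun l => n l * J) (jh F c k w H n) := by
  intro ω ν _ _ e
  funext l j'
  unfold jh
  by_cases h : l < k ∧ j' = 0
  · rw [if_pos h, if_pos h]
    exact congrFun e ⟨l, h.1⟩
  · rw [if_neg h, if_neg h]

/-- More digits of the positions. -/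
theorem vv_up {p : F.Ω → ℝ} (hp : IsLaw p) {w : ℕ} {n n' : ℕ → ℝ} {d : ℝ} (hd0 : 0 ≤ d)
    (hd : ∀ l < k, (n' l - n l) * J ≤ d) {β : Type} (Z : F.Ω → β) :
    CH p (Vv F c k w H fun l => n' l * J) Z ≤ CH p (Vv F c k w H fun l => n l * J) Z +
      k * (d * Real.log 2 + Real.log 5) := by
  have h0 := hp.nonneg
  have h1 := CH_le_add h0 (Vv F c k w H fun l => n' l * J) (Vv F c k w H fun l => n l * J) Z
  have h2 : CH p (Vv F c k w H fun l => n' l * J)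
      (fun ω => (Vv F c k w H (fun l => n l * J) ω, Z ω)) ≤
      CH p (jh F c k w H n') (fun ω => (Vv F c k w H (fun l => n l * J) ω, Z ω)) :=
    CH_mono_left h0 fun ω ν hω hν e => jh_vv n' ω ν hω hν (Prod.ext_iff.mp e).1
  have h3 := CH_jh hp (F := F) (c := c) (r := k) (w := w) (H := H) (n := n) (n' := n') (d := d) hd
    hd0 (fun ω => (Vv F c k w H (fun l => n l * J) ω, Z ω))
    (fun ω ν hω hν e => vv_jh n ω ν hω hν (Prod.ext_iff.mp e).1)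
  linarith

end

end Pool.VP83
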