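import Pool.Agent.H83.VP.S
import Pool.Agent.H83.VG.Num

/-!
# The numbers of the class theorem

`NP`: the windows. `NP.vbn`: the numbers of the contact coordinates. `NE`: the numbers of one event.
-/

set_option autoImplicit false

namespace Pool.VP83

open Finset Real
open Pool.PB Pool.LA91 Pool.V0F Pool.V0S

/-- The digits of the rows. -/
noncomputable def nbP (sn : ℕ → ℝ → ℝ) (w u y ξ : ℝ) (l : ℕ) : ℝ :=
  sn l w + (1 + ξ) * u + 500 * y

/-- **The numbers of the windows.** -/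
structure NP (k : ℕ) (sn : ℕ → ℝ → ℝ) (G : Set ℝ) (b o φ w u y ξ T Λ : ℝ) (w₁ : ℚ)
    (j x a x' x'' : ℝ) : Prop where
  W : PW k sn G b o φ w u y T Λ w₁ j x a x' x''
  φ0 : 0 < φ
  ξ0 : 0 < ξ
  ξ1 : ξ ≤ 1
  yu : 2000 * y ≤ ξ * u
  T10 : 10 ≤ T
  hΛ : Λ = 12 * T + 4 * k + 60
  sl : ∀ i < k, ∀ v ∈ G, b ≤ v → v ≤ o → |(sn i v - v) - (sn i w - w)| ≤ 2 * φ
  bG : b ∈ G
  oG : o ∈ G
  b0 : 0 ≤ b

namespace NP

variable {k : ℕ} {sn : ℕ → ℝ → ℝ} {G : Set ℝ} {b o φ w u y ξ T Λ : ℝ} {w₁ : ℚ}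
  {j x a x' x'' : ℝ}

section

variable (N : NP k sn G b o φ w u y ξ T Λ w₁ j x a x' x'')

include N

/-- The small quantities. -/
theorem sm : 0 ≤ (k : ℝ) * φ ∧ 0 < φ ∧ k * φ + 3 * φ ≤ y ∧ 0 < y ∧ ξ * u ≤ u ∧ 0 ≤ ξ * u ∧
    0 < u ∧ 10 * u ≤ T * u ∧ 0 ≤ (k : ℝ) * u ∧ Λ * u = 12 * (T * u) + 4 * (k * u) + 60 * u := by
  have h1 : (0 : ℝ) ≤ k := Nat.cast_nonneg k
  have h2 := N.φ0
  have h3 := N.W.yφ
  have h4 := N.W.u0
  have h5 : (0 : ℝ) ≤ k * φ := by positivity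
  refine ⟨h5, h2, by linarith, by nlinarith, ?_, ?_, h4, ?_, by positivity, ?_⟩
  · have := mul_le_mul_of_nonneg_right N.ξ1 h4.le
    linarith
  · have := N.ξ0
    positivity
  · exact mul_le_mul_of_nonneg_right N.T10 h4.le
  · rw [N.hΛ]
    ring

/-- The windows are between `b` and `o`. -/
theorem wins : b ≤ w ∧ w ≤ o ∧ b ≤ o ∧ b ≤ w₁ ∧ (w₁ : ℝ) ≤ x ∧ j ≤ a ∧ b ≤ j ∧ b ≤ x ∧
    (w₁ : ℝ) ≤ a ∧ b ≤ a ∧ a ≤ o ∧ a ≤ w + u + φ ∧ w + u ≤ a + φ ∧ a ≤ x' ∧ b ≤ x' ∧ x' ≤ o ∧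
    x' ≤ w + T * u + φ ∧ w + T * u ≤ x' + φ ∧ x' ≤ x'' ∧ b ≤ x'' ∧ x'' ≤ o ∧
    x'' ≤ w + 3 * (T * u) + φ ∧ w + 3 * (T * u) ≤ x'' + φ := by
  obtain ⟨h1, h2, h3, h4, h5, h6, h7, h8, h9, h10⟩ := N.sm
  have ha := abs_le.1 N.W.ha
  have hx' := abs_le.1 N.W.hx'
  have hx'' := abs_le.1 N.W.hx''
  have a1 := N.W.bw
  have a2 := N.W.wo
  have a3 := N.W.hw1
  have a4 := N.W.hw2
  have a5 := N.W.wj
  have a6 := N.W.jx
  have a7 := N.yu
  have a8 := N.W.xa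
  have e3 : 3 * T * u = 3 * (T * u) := by ring
  rw [e3] at hx''
  refine ⟨by linarith, by linarith, by linarith, by linarith, by linarith, by linarith,
    by linarith, by linarith, by linarith, by linarith, by linarith, by linarith, by linarith,
    by linarith, by linarith, by linarith, by linarith, by linarith, by linarith, by linarith,
    by linarith, by linarith, by linarith⟩

/-- The levels of the chain. -/
theorem slv {i : ℕ} (hi : i < k) {v : ℝ} (hv : v ∈ G) (h1 : b ≤ v) (h2 : v ≤ o) :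
    sn i v ≤ sn i w + (v - w) + 2 * φ ∧ sn i w + (v - w) - 2 * φ ≤ sn i v := by
  have := abs_le.1 (N.sl i hi v hv h1 h2)
  constructor <;> linarith [this.1, this.2]

theorem lwb {l : ℕ} (hl : l < k) : Λ * u ≤ sn l w ∧ sn l w + 2 * (Λ * u) ≤ 1 + 2 * φ := by
  obtain ⟨h1, h2, h3, h4, h5, h6, h7, h8, h9, h10⟩ := N.sm
  obtain ⟨w1, w2, w3, -⟩ := N.wins
  have c := N.W.lb l hl
  have e1 := N.slv hl N.bG le_rfl w3
  have e2 := N.slv hl N.oG w3 le_rfl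
  have a1 := N.W.bw
  have a2 := N.W.wo
  have a7 := N.yu
  constructor
  · linarith [c.1]
  · linarith [c.2]

theorem li {i : ℕ} (hi : i < k) : φ ≤ ((k : ℝ) - i) * φ ∧ ((k : ℝ) - i) * φ ≤ k * φ ∧
    0 ≤ (i : ℝ) * φ := by
  have h1 : (i : ℝ) + 1 ≤ k := by exact_mod_cast hi
  have h2 := N.φ0
  have h3 : (0 : ℝ) ≤ i := Nat.cast_nonneg i
  refine ⟨?_, ?_, by positivity⟩
  · nlinarith
  · nlinarith

/-- Digits which are few enough. -/
theorem tpg {n : ℕ → ℝ} (h : ∀ i < k, n i ≤ sn i w + 3 * (T * u) + 3 * u) : Tp k sn b φ n := by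
  obtain ⟨h1, h2, h3, h4, h5, h6, h7, h8, h9, h10⟩ := N.sm
  obtain ⟨w1, w2, w3, -⟩ := N.wins
  have a1 := N.W.bw
  have a2 := N.W.wo
  have a3 := N.W.o1
  have a7 := N.yu
  refine ⟨fun i hi => ?_, fun i hi l hl => ?_⟩
  · obtain ⟨i1, i2, i3⟩ := N.li hi
    have e0 := h i hi
    have e1 := N.slv hi N.bG le_rfl w3
    linarith
  · obtain ⟨i1, i2, i3⟩ := N.li hi
    have e0 := h i hi
    have e1 := N.slv hi N.bG le_rfl w3
    have e2 := N.slv (hl.trans hi) N.bG le_rfl w3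
    have e3 := N.slv (hl.trans hi) N.oG w3 le_rfl
    have e4 := (N.W.lb l (hl.trans hi)).2
    linarith

/-- **The numbers of the contact coordinates.** -/
theorem vbn : VBN k sn G b o φ (nnF k sn w u y φ) (nfF k sn w x' φ) (nfF k sn w x'' φ) w w₁ a x'
    x'' (35 * y) := by
  obtain ⟨h1, h2, h3, h4, h5, h6, h7, h8, h9, h10⟩ := N.sm
  obtain ⟨w1, w2, w3, w4, w5, w6, w7, w8, w9, w10, w11, w12, w13, w14, w15, w16, w17, w18, w19,
    w20, w21, w22, w23⟩ := N.wins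
  have a1 := N.W.bw
  have a2 := N.W.wo
  have a3 := N.W.o1
  have a7 := N.yu
  refine
    { aG := N.W.aG
      xG := N.W.xG'
      eG := N.W.xG''
      bw := w1
      ww := N.W.hw1
      wa := w9
      ax := w14
      xe := w19
      eo := w21
      nn0 := fun i hi => ?_
      nnf := fun i hi => ?_
      nf0 := fun i hi => ?_
      nfΔ := fun i hi => ?_
      nfe := fun i hi => ?_
      ne0 := fun i hi => ?_
      neΔ := fun i hi => ?_
      ne1 := fun i hi => ?_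
      tpf := N.tpg fun i hi => ?_
      tpe := N.tpg fun i hi => ?_ }
  · obtain ⟨i1, i2, i3⟩ := N.li hi
    have e1 := N.slv hi N.W.aG w10 w11
    unfold nnF
    linarith
  · obtain ⟨i1, i2, i3⟩ := N.li hi
    unfold nnF nfF
    linarith
  · obtain ⟨i1, i2, i3⟩ := N.li hi
    have e1 := N.slv hi N.W.xG' w15 w16
    unfold nfF
    linarith
  · obtain ⟨i1, i2, i3⟩ := N.li hi
    have e1 := N.slv hi N.W.xG' w15 w16
    unfold nfF
    linarith
  · unfold nfF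
    linarith
  · obtain ⟨i1, i2, i3⟩ := N.li hi
    have e1 := N.slv hi N.W.xG'' w20 w21
    unfold nfF
    linarith
  · obtain ⟨i1, i2, i3⟩ := N.li hi
    have e1 := N.slv hi N.W.xG'' w20 w21
    unfold nfF
    linarith
  · obtain ⟨i1, i2, i3⟩ := N.li hi
    have e1 := N.lwb hi
    unfold nfF
    linarith
  · obtain ⟨i1, i2, i3⟩ := N.li hi
    unfold nfF
    linarith
  · obtain ⟨i1, i2, i3⟩ := N.li hi
    unfold nfF
    linarith

/-- The digits of the rows are few enough. -/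
theorem tpb : Tp k sn b φ (nbP sn w u y ξ) := by
  obtain ⟨h1, h2, h3, h4, h5, h6, h7, h8, h9, h10⟩ := N.sm
  have a7 := N.yu
  refine N.tpg fun i hi => ?_
  unfold nbP
  linarith

/-- **The digits of the rows.** -/
theorem nbc : (∀ i < k, sn i a ≤ nnF k sn w u y φ i ∧ nnF k sn w u y φ i ≤ nbP sn w u y ξ i ∧
    nbP sn w u y ξ i ≤ 1) ∧ ∀ i < k, ξ * u ≤ nbP sn w u y ξ i - nnF k sn w u y φ i := by
  obtain ⟨h1, h2, h3, h4, h5, h6, h7, h8, h9, h10⟩ := N.sm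
  have V := N.vbn
  have a7 := N.yu
  have hd : ∀ i < k, ξ * u ≤ nbP sn w u y ξ i - nnF k sn w u y φ i := fun i hi => by
    obtain ⟨i1, i2, i3⟩ := N.li hi
    unfold nnF nbP
    linarith
  refine ⟨fun i hi => ⟨V.nn0 i hi, by linarith [hd i hi], ?_⟩, hd⟩
  have e1 := N.lwb hi
  unfold nbP
  linarith

/-- The numbers of the codes of order `≥ 2` of the chain. -/
theorem k9_c : w < 1 ∧ ∀ l < k, sn l w + 3 * u ≤ (sn l b - φ) + 2 * (w - b) := by
  obtain ⟨h1, h2, h3, h4, h5, h6, h7, h8, h9, h10⟩ := N.sm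
  obtain ⟨w1, w2, w3, -⟩ := N.wins
  have a1 := N.W.bw
  have a2 := N.W.wo
  have a3 := N.W.o1
  have a7 := N.yu
  refine ⟨by linarith, fun l hl => ?_⟩
  have e1 := N.slv hl N.bG le_rfl w3
  linarith

/-- **The digits of the velocities**, for any distance `S ≥ 1`. -/
theorem pq {S : ℝ} (hS : 1 ≤ S) (hS2 : S ≤ 3 * T + 1) : ∃ Pq : ℕ → ℚ,
    (∀ l < k, sn l w - w + S * u ≤ (Pq l : ℝ)) ∧
    (∀ l < k, (Pq l : ℝ) ≤ sn l w - w + (S + k + 1) * u) ∧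
    (∀ l < k, sn l w - w + (S + ((k : ℝ) - l)) * u < Pq l ∧
      (Pq l : ℝ) < sn l w - w + (S + ((k : ℝ) - l)) * u + u / 4) ∧
    (∀ i : Fin k, sn i w - w + u ≤ (Pq i : ℝ) ∧ (Pq i : ℝ) ≤ sn i w - w + Λ * u) ∧
    (∀ l i : Fin k, l < i → (Pq i : ℝ) - (sn i w - w) + u / 2 ≤ Pq l - (sn l w - w)) := by
  obtain ⟨h1, h2, h3, h4, h5, h6, h7, h8, h9, h10⟩ := N.sm
  have hS' : 1 * u ≤ S * u := mul_le_mul_of_nonneg_right hS h7.le
  have hS3 : S * u ≤ (3 * T + 1) * u := mul_le_mul_of_nonneg_right hS2 h7.le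
  have hPex : ∀ l : ℕ, ∃ q : ℚ, sn l w - w + (S + ((k : ℝ) - l)) * u < q ∧
      (q : ℝ) < sn l w - w + (S + ((k : ℝ) - l)) * u + u / 4 := fun l =>
    exists_rat_btwn (by linarith only [h7])
  choose Pq hPq1 hPq2 using hPex
  have hrl : ∀ l < k, 0 ≤ ((k : ℝ) - l) * u ∧ ((k : ℝ) - l) * u ≤ k * u := by
    intro l hl
    have h1 : (l : ℝ) ≤ k := by exact_mod_cast hl.le
    have h2 : (0 : ℝ) ≤ l := Nat.cast_nonneg l
    exact ⟨mul_nonneg (by linarith) h7.le, mul_le_mul_of_nonneg_right (by linarith) h7.le⟩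
  refine ⟨Pq, fun l hl => ?_, fun l hl => ?_, fun l _ => ⟨hPq1 l, hPq2 l⟩, fun i => ⟨?_, ?_⟩,
    fun l i hli => ?_⟩
  · have h1 := hPq1 l
    have h2 := hrl l hl
    linarith only [h1, h2.1]
  · have h1 := hPq2 l
    have h2 := hrl l hl
    linarith only [h1, h2.2, h7]
  · have h1 := hPq1 i
    have h2 := hrl i i.2
    linarith only [h1, h2.1, h8, h7, hS']
  · have h1 := hPq2 i
    have h2 := hrl i i.2
    linarith only [h1, h2.2, h8, h7, h10, h9, hS3]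
  · have h1 := hPq1 (l : ℕ)
    have h2 := hPq2 (i : ℕ)
    have h3 : ((l : ℕ) : ℝ) + 1 ≤ ((i : ℕ) : ℝ) := by exact_mod_cast hli
    have h4 : (((k : ℝ) - (i : ℕ)) + 1) * u ≤ ((k : ℝ) - (l : ℕ)) * u :=
      mul_le_mul_of_nonneg_right (by linarith only [h3]) h7.le
    linarith only [h1, h2, h4, h7]

/-- The digits of the deep path. -/
theorem neP {l : ℕ} (hl : l < k) : sn l w + 3 * T * u ≤ nfF k sn w x'' φ l ∧
    nfF k sn w x'' φ l ≤ sn l w + 3 * T * u + 100 * y := by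
  obtain ⟨h1, h2, h3, h4, h5, h6, h7, h8, h9, h10⟩ := N.sm
  obtain ⟨w1, w2, w3, w4, w5, w6, w7, w8, w9, w10, w11, w12, w13, w14, w15, w16, w17, w18, w19,
    w20, w21, w22, w23⟩ := N.wins
  obtain ⟨i1, i2, i3⟩ := N.li hl
  have e3 : 3 * T * u = 3 * (T * u) := by ring
  unfold nfF
  rw [e3]
  constructor <;> linarith

end

end NP

/-- The windows of the theorem. -/
theorem np_ex {m : ℕ} {S : PCl m} {c : ℕ → Fin m} {k : ℕ} {sn : ℕ → ℝ → ℝ} {G : Set ℝ}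
    {b o φ w u y ξ T Λ : ℝ} {w₁ : ℚ} {j x a x' x'' : ℝ} (L : Lad S c k sn G b o φ)
    (W : PW k sn G b o φ w u y T Λ w₁ j x a x' x'') (hξ : 0 < ξ) (hξ1 : ξ ≤ 1)
    (hT : 10 ≤ T) (hΛ : Λ = 12 * T + 4 * k + 60) (hy : 2000 * y ≤ ξ * u) :
    NP k sn G b o φ w u y ξ T Λ w₁ j x a x' x'' where
  W := W
  φ0 := L.φ0
  ξ0 := hξ
  ξ1 := hξ1
  yu := hy
  T10 := hT
  hΛ := hΛ
  sl := fun i hi v hv h1 h2 => by
    have hu := W.u0
    have hΛu : 0 ≤ Λ * u := by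
      rw [hΛ]
      have : (0 : ℝ) ≤ k := Nat.cast_nonneg k
      have : 0 ≤ 12 * T + 4 * k + 60 := by linarith
      positivity
    have e1 := abs_le.1 (L.fl i hi v hv h1 h2)
    have e2 := abs_le.1 (L.fl i hi w W.wG (by linarith [W.bw]) (by linarith [W.wo]))
    rw [abs_le]
    constructor <;> linarith [e1.1, e1.2, e2.1, e2.2]
  bG := L.bG
  oG := L.oG
  b0 := L.b0

section

variable {k : ℕ} {sn : ℕ → ℝ → ℝ} {G : Set ℝ} {b o φ w u y ξ T Λ : ℝ} {w₁ : ℚ}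
  {j x a x' x'' : ℝ} {J : ℕ} {γ : ℕ → ℕ} {q X mm W : ℕ}

/-- **The conditions of the digits.** -/
structure NF (k : ℕ) (sn : ℕ → ℝ → ℝ) (φ w u y ξ T x' : ℝ) (P : ℕ → ℝ) (J : ℕ) (γ : ℕ → ℕ)
    (q X mm W : ℕ) : Prop where
  WX : W + X ≤ J
  n0 : ∀ l < k, nnF k sn w u y φ l * J ≤ (γ l + q : ℕ)
  u0 : ∀ l < k, (sn l w + (u + 100 * y)) * J ≤ (γ l + q : ℕ)
  u1 : ∀ l < k, (sn l w - w + (u + 100 * y)) * J + W ≤ (γ l + q + (X + mm) : ℕ)
  f0 : ∀ l < k, ((γ l + q + (X + mm) : ℕ) : ℝ) ≤ nfF k sn w x' φ l * J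
  f1 : ∀ l < k, ((γ l + q + (X + mm) : ℕ) : ℝ) ≤ P l * J + W
  d : ∀ l < k, ((γ l + q : ℕ) : ℝ) - nnF k sn w u y φ l * J ≤ 300 * y * J
  nb1 : ∀ l < k, ((γ l + q + X : ℕ) : ℝ) ≤ nbP sn w u y ξ l * J
  nb2 : ∀ l < k, nbP sn w u y ξ l * J - (γ l + q + X : ℕ) ≤ y * J
  nbf : ∀ l < k, ((γ l + q + X : ℕ) : ℝ) ≤ nfF k sn w x' φ l * J
  k9a : ∀ l < k, ((γ l + q + (X + mm) : ℕ) : ℝ) ≤ (sn l w + 3 * u) * J
  ff : ∀ l < k, sn l w + T * u ≤ nfF k sn w x' φ l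

theorem NP.nf (N : NP k sn G b o φ w u y ξ T Λ w₁ j x a x' x'')
    (M : Pool.VG83.NE k sn φ w u y ξ J γ q X mm W) {P : ℕ → ℝ}
    (hP : ∀ l < k, sn l w - w + (T + 1) * u ≤ P l) :
    NF k sn φ w u y ξ T x' P J γ q X mm W := by
  obtain ⟨h1, h2, h3, h4, h5, h6, h7, h8, h9, h10⟩ := N.sm
  obtain ⟨w1, w2, w3, w4, w5, w6, w7, w8, w9, w10, w11, w12, w13, w14, w15, w16, w17, w18, w19,
    w20, w21, w22, w23⟩ := N.wins
  have a1 := N.W.bw
  have a2 := N.W.wo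
  have a3 := N.W.o1
  have a7 := N.yu
  have hJ0 : (0 : ℝ) ≤ J := Nat.cast_nonneg J
  have mj : ∀ {a a' : ℝ}, a ≤ a' → a * J ≤ a' * J := fun h => mul_le_mul_of_nonneg_right h hJ0
  obtain ⟨m0, m1, m2, m3, m4, m5, m6, m7, m8, m9, m10⟩ := M
  have z1 := mj h3
  have z2 := mj a7
  have z3 := mj h5
  have z4 := mj h8
  have hkJ : 0 ≤ (k : ℝ) * φ * J := by positivity
  have huJ : 0 ≤ u * J := by positivity
  have hyJ : 0 ≤ y * J := by positivity
  have hw0 : 0 ≤ w := N.b0.trans w1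
  refine
    { WX := ?_
      n0 := fun l hl => ?_
      u0 := fun l hl => ?_
      u1 := fun l hl => ?_
      f0 := fun l hl => ?_
      f1 := fun l hl => ?_
      d := fun l hl => ?_
      nb1 := fun l hl => ?_
      nb2 := fun l hl => ?_
      nbf := fun l hl => ?_
      k9a := fun l hl => ?_
      ff := fun l hl => ?_ }
  · have e1 : (W : ℝ) + X ≤ J := by
      have e2 := mj (show w + 2 * φ + ξ * u ≤ 1 by linarith)
      linarith
    exact_mod_cast e1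
  · obtain ⟨i1, i2, i3⟩ := N.li hl
    have z5 := mj i2
    have g1 := m1 l hl
    unfold nnF
    push_cast
    linarith
  · have g1 := m1 l hl
    push_cast
    linarith
  · have g1 := m1 l hl
    push_cast
    linarith
  · obtain ⟨i1, i2, i3⟩ := N.li hl
    have z5 := mj i1
    have g2 := m2 l hl
    have z6 := mj w18
    unfold nfF
    push_cast
    linarith
  · have g2 := m2 l hl
    have z6 := mj (hP l hl)
    push_cast
    linarith
  · obtain ⟨i1, i2, i3⟩ := N.li hl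
    have z5 := mj i1
    have g2 := m2 l hl
    unfold nnF
    push_cast
    linarith
  · have g2 := m2 l hl
    unfold nbP
    push_cast
    linarith
  · have g1 := m1 l hl
    unfold nbP
    push_cast
    linarith
  · obtain ⟨i1, i2, i3⟩ := N.li hl
    have z5 := mj i1
    have g2 := m2 l hl
    have z6 := mj w18
    unfold nfF
    push_cast
    linarith
  · have g2 := m2 l hl
    push_cast
    linarith
  · obtain ⟨i1, i2, i3⟩ := N.li hl
    unfold nfF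
    linarith

end

end Pool.VP83
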