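import Pool.Agent.H87.V0S.Sp
import Pool.Agent.H56.V0S.EvC

/-!
# Several targets with arbitrary paths and a side path: the class theorem, statement

As `Pool.V0S.V0pStmt` (helper87), with `C` targets `TV ω v`, `v < C`, in the windows `Xt v ≤ X`. The
target `i0` has the window `X` and the gradients `gg`, the others have no gradient. The row of `i0` is
given the far digits of the other targets. `V0pCStmt`: the gradients of `i0` are closed.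
-/

set_option autoImplicit false

namespace Pool.VP83

open Finset Real MvPolynomial
open Pool.Agent.H49.Ent Pool.Agent.H32.Dense
open Pool.STK hiding pr2
open Pool.KA Pool.KSAT Pool.K2S Pool.PB Pool.S6C
open Pool.GEN Pool.CHT Pool.CHX Pool.ISO Pool.LA91 Pool.AVG71 Pool.AVG5 Pool.D2F2 Pool.AVG57
open Pool.RCD Pool.AVG96 Pool.V0F Pool.V0S
open Pool.D2R (hgt)
open Pool.BFL (Pb)
open Pool.KVA (MI)
open Pool.FS21 (oth)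
open Pool.PB.Trl (rt)

/-- **The gradients of the targets** in terms of their values. -/
structure GrTC {m J : ℕ} (F : Fam m J) (c : ℕ → Fin m) (k q X : ℕ) (γ : ℕ → ℕ) (U : ℝ)
    (B : F.Ω → Prop) (G₀ : PtT F → ℕ → MvPolynomial (Option (Fin m)) ℝ) {C : ℕ}
    (Xt : Fin C → ℕ) (i0 : Fin C) (gg : F.Ω → Fin k → ℝ) (TV : F.Ω → Fin C → ℝ)
    {σ χ₁ χ₂ : Type} (sd : F.Ω → σ) (Cj : F.Ω → χ₁) (Cx : F.Ω → χ₂) : Prop where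
  U0 : 0 ≤ U
  bm : ∀ ω, B ω → ∀ j, |gg ω j| ≤ U
  bj : ∀ ω ν, B ω → B ν → F.t ω = F.t ν → sd ω = sd ν → Cj ω = Cj ν →
    (∀ j < k, |hgt F c G₀ ω j - hgt F c G₀ ν j| ≤ 2 ^ 2 / 2 ^ (γ j + q)) →
    ∀ j, |gg ω j - gg ν j| ≤ U / 2 ^ X
  bx : ∀ ω ν, B ω → B ν → F.t ω = F.t ν → sd ω = sd ν → Cx ω = Cx ν →
    (∀ j < k, |hgt F c G₀ ω j - hgt F c G₀ ν j| ≤ 2 ^ 2 / 2 ^ (γ j + q)) →
    ∀ j, |gg ω j - gg ν j| ≤ U / 2 ^ X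
  nx : ∀ ω ν, B ω → B ν → F.t ω = F.t ν → sd ω = sd ν → Cx ω = Cx ν →
    (∀ j < k, |hgt F c G₀ ω j - hgt F c G₀ ν j| ≤ 2 ^ 2 / 2 ^ (γ j + q)) →
    ∀ v, |2 ^ Xt v * (TV ω v - TV ν v) - 2 ^ X * ∑ j : Fin k, ggC i0 gg ω v j *
      (2 ^ (γ j + q) * (hgt F c G₀ ω j - hgt F c G₀ ν j))| ≤ U

/-- **The inputs on one event.** `sn l w`: the digits of the heights of the contact coordinates at
`w`; `q`, `q + X`: the near and far digits. -/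
structure PEvC {m J : ℕ} (F : Fam m J) (c : ℕ → Fin m) (k D' K q X Cg : ℕ) (sn : ℕ → ℝ → ℝ)
    (w u y φ ξ T : ℝ) (w₁ : ℚ) (j x a h π₀ δ : ℝ) (A : F.Ω → Prop)
    (G₀ : PtT F → ℕ → MvPolynomial (Option (Fin m)) ℝ)
    (H : LnT F → ℕ → MvPolynomial (Option (Fin m)) ℝ) (γ : ℕ → ℕ) (gg : F.Ω → Fin k → ℝ) {C : ℕ}
    (Xt : Fin C → ℕ) (i0 : Fin C) (TV : F.Ω → Fin C → ℝ)
    (tp : ℕ → F.Ω → Fin C → Polynomial ℝ) {χ₁ χ₂ σ : Type} (Cj : F.Ω → χ₁)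
    (Cx : F.Ω → χ₂) (sd : F.Ω → σ) : Prop where
  deg : ∀ s l, (H s l).totalDegree ≤ D'
  /-- the labels are closed -/
  cl : ∀ ω, A ω → ∀ l < k, G₀ (ptr F J ω) l = H (slam F ⌊w * J⌋₊ ω) l
  γb : ∀ l < k, (sn l w - φ) * J ≤ γ l ∧ (γ l : ℝ) ≤ sn l w * J
  /-- the windows of the targets -/
  x0 : Xt i0 = X
  xX : ∀ v, Xt v ≤ X
  /-- the paths of the targets and the side path are functions of the line -/
  tL : ∀ W : ℕ, ⌊(w₁ : ℝ) * J⌋₊ ≤ W → W ≤ J →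
    Det (Pool.Agent.H49.Ent.cond F.p A True) (slam F W) (tp W)
  dP : ∀ W : ℕ, ∀ ω, A ω → ∀ v, (tp W ω v).natDegree ≤ K
  tv : ∀ W : ℕ, ⌊(w₁ : ℝ) * J⌋₊ ≤ W → W ≤ J → ∀ ω, A ω → ∀ v,
    (tp W ω v).eval (rt F W ω) = TV ω v
  sL : Det (Pool.Agent.H49.Ent.cond F.p A True) (slam F ⌊(w₁ : ℝ) * J⌋₊) sd
  /-- the gradients -/
  grd : GrTC F c k q X γ (2 ^ (Cg * (⌈1000 * y * J⌉₊ + 3))) A G₀ Xt i0 gg TV sd Cj Cx
  hj : Det (Pool.Agent.H49.Ent.cond F.p A True) (cR F A j) Cj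
  hx : Det (Pool.Agent.H49.Ent.cond F.p A True) (cR F A x) Cx
  /-- the side path is few bits given the near path and the record at `a` -/
  sa : CH (Pool.Agent.H49.Ent.cond F.p A True) sd
    (fun ω => (nrP F c k sn H w (u + 100 * y) ω, (cR F A a ω, F.W ω))) ≤ δ * u * J
  /-- no look-ahead over the deep path -/
  nl : ∀ ne Pe' : ℕ → ℝ, (∀ l < k, sn l w + 3 * T * u ≤ ne l ∧ ne l ≤ sn l w + 3 * T * u + 100 * y ∧
      sn l w - w + 3 * T * u ≤ Pe' l ∧ Pe' l ≤ sn l w - w + (3 * T + k + 2) * u) →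
    MI (Pool.Agent.H49.Ent.cond F.p A True) (cR F A j)
      (fun ω (v : Fin C) => ⌊(2 : ℝ) ^ Xt v * TV ω v⌋)
      (fun ω => ((fun v : Fin C => ⌊TV ω v⌋), (sd ω, ((jh F c k ⌊w * J⌋₊ H ne ω,
        jv F c k ⌊w * J⌋₊ H Pe' ω), (cR F A w₁ ω, F.W ω))))) ≤ δ * u * J
  /-- the codes of order `≥ 1` of the targets, over the far path -/
  dj : ∀ W : ℕ, ⌊(w₁ : ℝ) * J⌋₊ ≤ W → (W : ℝ) ≤ (w + 2 * φ) * J →
    CH (Pool.Agent.H49.Ent.cond F.p A True)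
      (fun ω v (i : Fin K) => ⌊(2 : ℝ) ^ Xt v * (tp W ω v).coeff i.succ⌋)
      (fun ω => (nrP F c k sn H w (T * u) ω, (sd ω, (cR F A w₁ ω, F.W ω)))) ≤ δ * u * J
  /-- the near codes of the targets, over the near path and the record at `x` -/
  jt : ∀ W : ℕ, ⌊(w₁ : ℝ) * J⌋₊ ≤ W → (W : ℝ) ≤ (w + 2 * φ) * J →
    CH (Pool.Agent.H49.Ent.cond F.p A True)
      (fun ω v (i : Fin (K + 1)) => ⌊(2 : ℝ) ^ Xt v * (tp W ω v).coeff i⌋ / 2 ^ Xt v)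
      (fun ω => (nrP F c k sn H w (u + 100 * y) ω, (sd ω, (cR F A x ω, F.W ω)))) ≤ δ * u * J
  /-- the rows -/
  row : ∀ B : F.Ω → Prop, Sub B A → π₀ * Pe F.p A ≤ Pe F.p B →
    CH (Pool.Agent.H49.Ent.cond F.p B True) (fun ω => ⌊(2 : ℝ) ^ X * TV ω i0⌋)
      (fun ω => ((⌊TV ω i0⌋, oth i0 (fun v : Fin C => ⌊(2 : ℝ) ^ Xt v * TV ω v⌋)),
        (Vv F c k ⌊w * J⌋₊ H (fun l => ((γ l + q + X : ℕ) : ℝ)) ω,
        (sd ω, (cR F A w₁ ω, F.W ω))))) ≤ ((1 - h) * ξ * u * Real.log 2 + δ * u) * J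

/-- **(V0PC)** The class theorem for several targets. -/
def V0pCStmt : Prop := ∀ (C D D' k K : ℕ) (h x₀ ξ ε : ℝ), 1 ≤ D → D ≤ D' → D' + 1 ≤ K → 1 ≤ k →
  0 < h → h ≤ 1 → 0 < x₀ → x₀ < h → 0 < ξ → ξ ≤ 1 → 0 < ε →
  ∃ π₀ δ₀ T₀ : ℝ, 0 < π₀ ∧ 0 < δ₀ ∧ ∀ T : ℝ, T₀ ≤ T → ∃ Λ : ℝ, 1 ≤ Λ ∧ ∀ Cg : ℕ,
  ∃ φ₀ : ℝ, 0 < φ₀ ∧
  ∀ {m : ℕ} {S : PCl m} {c : ℕ → Fin m} {sn : ℕ → ℝ → ℝ} {G : Set ℝ} {b o φ : ℝ},
    Lad S c k sn G b o φ → ∀ {w u y j x a x' x'' : ℝ} {w₁ : ℚ} {sp : ℕ → ℝ → ℝ}, y ≤ φ₀ * u →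
    PW k sn G b o φ w u y T Λ w₁ j x a x' x'' →
    -- free velocities
    (∀ i < k, sp i b ≤ sn i b - φ) →
    (∀ (P : Fin k → ℚ) (xe : ℝ), xe = x' ∨ xe = x'' →
      (∀ i : Fin k, sn i w - w + u ≤ P i ∧ (P i : ℝ) ≤ sn i w - w + Λ * u) →
      (∀ l i : Fin k, l < i → (P i : ℝ) - (sn i w - w) + u / 2 ≤ P l - (sn l w - w)) →
      FrI S c k sp b (fun i => (P i : ℝ)) w₁ xe (φ₀ * u)) →
    -- the records
    (∃ η : ℝ, RNum S (fun J F => ptr F J) (vg (w₁ : ℝ)) η) →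
    ∀ E : ℝ, Bas S (fun J F A => ∀ (G₀ : PtT F → ℕ → MvPolynomial (Option (Fin m)) ℝ)
      (Hb Hw H₀ H : LnT F → ℕ → MvPolynomial (Option (Fin m)) ℝ) (γ : ℕ → ℕ)
      (gg : F.Ω → Fin k → ℝ) (Xt : Fin C → ℕ) (i0 : Fin C) (TV : F.Ω → Fin C → ℝ)
      (tp : ℕ → F.Ω → Fin C → Polynomial ℝ) (χ₁ χ₂ σ : Type)
      (Cj : F.Ω → χ₁) (Cx : F.Ω → χ₂) (sd : F.Ω → σ),
      LD F c k D b w φ E sn A Hb Hw H₀ →
      (∀ ω, ∀ l < k, H (slam F ⌊w * J⌋₊ ω) l = Hb (slam F ⌊b * J⌋₊ ω) l) →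
      PEvC F c k D' K ⌊(u + 500 * y) * J⌋₊ ⌊ξ * u * J⌋₊ Cg sn w u y φ ξ T w₁ j x a h π₀ δ₀ A G₀ H γ
        gg Xt i0 TV tp Cj Cx sd →
      ∃ (W : ℕ) (mu : LnT F → Fin k → Polynomial ℝ), ⌊(w₁ : ℝ) * J⌋₊ ≤ W ∧
        (W : ℝ) ≤ (w + 2 * φ) * J ∧ (∀ s i, (mu s i).natDegree ≤ K) ∧
        Pb (Pool.Agent.H49.Ent.cond F.p A True) (fun ω => ∃ i : Fin k,
          (2 : ℝ) ^ (-(x₀ * ⌊ξ * u * J⌋₊)) <
            |gg ω i - (mu (slam F W ω) i).eval (rt F W ω)|) ≤ ε)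

section

variable {Ω : Type} [Fintype Ω] {p : Ω → ℝ}

/-- Equivalent variables and conditions. -/
theorem ch_eqv (h0 : ∀ ω, 0 ≤ p ω) {β β' γ γ' : Type} {X : Ω → β} {X' : Ω → β'} {W : Ω → γ}
    {W' : Ω → γ'} (h1 : Det p X X') (h2 : Det p X' X) (h3 : Det p W W') (h4 : Det p W' W) :
    CH p X W = CH p X' W' :=
  CH_congr h0 (fun ω ν hω hν e => h1 ω ν hω hν (Prod.ext_iff.mp e).1)
    (fun ω ν hω hν e => h2 ω ν hω hν (Prod.ext_iff.mp e).1) h3 h4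

theorem mi_eqv (h0 : ∀ ω, 0 ≤ p ω) {α β β' γ γ' : Type} (R : Ω → α) {X : Ω → β} {X' : Ω → β'}
    {W : Ω → γ} {W' : Ω → γ'} (h1 : Det p X X') (h2 : Det p X' X) (h3 : Det p W W')
    (h4 : Det p W' W) : MI p R X W = MI p R X' W' := by
  rw [Pool.AVG71.MI_eq' h0, Pool.AVG71.MI_eq' h0, ch_eqv h0 h1 h2 h3 h4,
    ch_eqv h0 h1 h2 (W := fun ω => (R ω, W ω)) (W' := fun ω => (R ω, W' ω))
      (fun ω ν hω hν e => Prod.ext (Prod.ext_iff.mp e).1 (h3 ω ν hω hν (Prod.ext_iff.mp e).2))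
      (fun ω ν hω hν e => Prod.ext (Prod.ext_iff.mp e).1 (h4 ω ν hω hν (Prod.ext_iff.mp e).2))]

omit [Fintype Ω] in
theorem det_c1 {α : Type} (f : Ω → α) : Det p f (fun ω (_ : Fin 1) => f ω) :=
  fun _ _ _ _ e => funext fun _ => e

omit [Fintype Ω] in
theorem det_c1' {α : Type} (f : Ω → α) : Det p (fun ω (_ : Fin 1) => f ω) f :=
  fun _ _ _ _ e => congrFun e 0

end

/-- The statement for one target. -/
theorem grTC_of1 {m J : ℕ} {F : Fam m J} {c : ℕ → Fin m} {k q X : ℕ} {γ : ℕ → ℕ} {U : ℝ}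
    {B : F.Ω → Prop} {G₀ : PtT F → ℕ → MvPolynomial (Option (Fin m)) ℝ}
    {gg : F.Ω → Fin k → ℝ} {TV : F.Ω → ℝ} {σ χ₁ χ₂ : Type} {sd : F.Ω → σ} {Cj : F.Ω → χ₁}
    {Cx : F.Ω → χ₂} (h : GrT F c k q X γ U B G₀ gg TV sd Cj Cx) :
    GrTC F c k q X γ U B G₀ (fun _ : Fin 1 => X) 0 gg (fun ω _ => TV ω) sd Cj Cx where
  U0 := h.U0
  bm := h.bm
  bj := h.bj
  bx := h.bx
  nx := fun ω ν h1 h2 h3 h4 h5 h6 v => by
    have e1 := h.nx ω ν h1 h2 h3 h4 h5 h6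
    have e2 : ∀ j, ggC (0 : Fin 1) gg ω v j = gg ω j := fun j => by
      unfold ggC
      rw [if_pos (Subsingleton.elim _ _)]
    simp only [e2]
    exact e1

/-- **(V0P)** from (V0PC). -/
theorem v0p_of_c (h : V0pCStmt) : V0pStmt := by
  intro D D' k K h' x₀ ξ ε hD hDD hK hk hh hh1 hx hxh hξ hξ1 hε
  obtain ⟨π₀, δ₀, T₀, hπ, hδ, H⟩ := h 1 D D' k K h' x₀ ξ ε hD hDD hK hk hh hh1 hx hxh hξ hξ1 hε
  refine ⟨π₀, δ₀, T₀, hπ, hδ, fun T hT => ?_⟩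
  obtain ⟨Λ, hΛ, H⟩ := H T hT
  refine ⟨Λ, hΛ, fun Cg => ?_⟩
  obtain ⟨φ₀, hφ, H⟩ := H Cg
  refine ⟨φ₀, hφ, ?_⟩
  intro m S c sn G b o φ L w u y j x a x' x'' w₁ sp hy W hsp hfr hη E
  refine Bas.mono 0 ((H L hy W hsp hfr hη E).and (pos_bas L.pos)) ?_
  rintro J - F A ⟨H, hA⟩ G₀ Hb Hw H₀ Hl γ gg TV tp χ₁ χ₂ σ Cj Cx sd hLD hH g
  refine H G₀ Hb Hw H₀ Hl γ gg (fun _ => ⌊ξ * u * J⌋₊) 0 (fun ω _ => TV ω)
    (fun W ω _ => tp W ω) χ₁ χ₂ σ Cj Cx sd hLD hH ?_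
  have h0 := (isLaw_cond F.isLaw hA).nonneg
  exact
    { deg := g.deg
      cl := g.cl
      γb := g.γb
      x0 := rfl
      xX := fun _ => le_rfl
      tL := fun W h1 h2 ω ν hω hν e => by
        funext _
        exact g.tL W h1 h2 ω ν hω hν e
      dP := fun W ω hω _ => g.dP W ω hω
      tv := fun W h1 h2 ω hω _ => g.tv W h1 h2 ω hω
      sL := g.sL
      grd := grTC_of1 g.grd
      hj := g.hj
      hx := g.hx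
      sa := g.sa
      nl := fun ne Pe' hn => by
        refine le_trans (le_of_eq (mi_eqv h0 _ (det_c1' _) (det_c1 _) ?_ ?_)) (g.nl ne Pe' hn)
        · intro ω ν _ _ e
          simp only [Prod.mk.injEq] at e ⊢
          exact ⟨congrFun e.1 0, e.2⟩
        · intro ω ν _ _ e
          simp only [Prod.mk.injEq] at e ⊢
          exact ⟨funext fun _ => e.1, e.2⟩
      dj := fun W h1 h2 => le_trans (le_of_eq (ch_eqv h0 (det_c1' _) (det_c1 _)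
        (fun _ _ _ _ e => e) fun _ _ _ _ e => e)) (g.dj W h1 h2)
      jt := fun W h1 h2 => le_trans (le_of_eq (ch_eqv h0 (det_c1' _) (det_c1 _)
        (fun _ _ _ _ e => e) fun _ _ _ _ e => e)) (g.jt W h1 h2)
      row := fun B hB hm => by
        refine le_trans (CH_mono_cond (isLaw_cond F.isLaw (lt_of_lt_of_le (mul_pos hπ hA)
          hm)).nonneg fun ω ν _ _ e => ?_) (g.row B hB hm)
        simp only [Prod.mk.injEq] at e ⊢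
        exact ⟨e.1.1, e.2⟩ }

end Pool.VP83
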