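import Pool.Agent.H83.VP.S

/-!
# Several targets in windows of different lengths: the class theorem, statement

As `V0pCStmt`, but the window `Xt i0` of the target with the gradients may be shorter than `X`, so that
the other targets may have more digits than the target `i0`. The gradients are in the units of the
windows (`GrTC`). `V0pDStmt`: the gradients of `i0` are closed.
-/

set_option autoImplicit false

namespace Pool.VP83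

open Finset Real MvPolynomial
open Pool.Agent.H49.Ent Pool.Agent.H32.Dense
open Pool.STK hiding pr2
open Pool.KA Pool.KSAT Pool.K2S Pool.PB Pool.S6C
open Pool.GEN Pool.CHT Pool.CHX Pool.ISO Pool.LA91 Pool.AVG71 Pool.AVG5 Pool.D2F2 Pool.AVG57
open Pool.RCD Pool.AVG96 Pool.V0F Pool.V0S
open Pool.D2R (hgt)
open Pool.BFL (Pb)
open Pool.KVA (MI)
open Pool.FS21 (oth)
open Pool.PB.Trl (rt)

/-- **The inputs on one event.** `sn l w`: the digits of the heights of the contact coordinates at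
`w`; `q`, `q + X`: the near and far digits. -/
structure PEvD {m J : ℕ} (F : Fam m J) (c : ℕ → Fin m) (k D' K q X Cg : ℕ) (sn : ℕ → ℝ → ℝ)
    (w u y φ ξ T : ℝ) (w₁ : ℚ) (j x a h π₀ δ : ℝ) (A : F.Ω → Prop)
    (G₀ : PtT F → ℕ → MvPolynomial (Option (Fin m)) ℝ)
    (H : LnT F → ℕ → MvPolynomial (Option (Fin m)) ℝ) (γ : ℕ → ℕ) (gg : F.Ω → Fin k → ℝ) {C : ℕ}
    (Xt : Fin C → ℕ) (i0 : Fin C) (TV : F.Ω → Fin C → ℝ)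
    (tp : ℕ → F.Ω → Fin C → Polynomial ℝ) {χ₁ χ₂ σ : Type} (Cj : F.Ω → χ₁)
    (Cx : F.Ω → χ₂) (sd : F.Ω → σ) : Prop where
  deg : ∀ s l, (H s l).totalDegree ≤ D'
  /-- the labels are closed -/
  cl : ∀ ω, A ω → ∀ l < k, G₀ (ptr F J ω) l = H (slam F ⌊w * J⌋₊ ω) l
  γb : ∀ l < k, (sn l w - φ) * J ≤ γ l ∧ (γ l : ℝ) ≤ sn l w * J
  /-- the windows of the targets -/
  xX : ∀ v, Xt v ≤ X
  /-- the paths of the targets and the side path are functions of the line -/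
  tL : ∀ W : ℕ, ⌊(w₁ : ℝ) * J⌋₊ ≤ W → W ≤ J →
    Det (Pool.Agent.H49.Ent.cond F.p A True) (slam F W) (tp W)
  dP : ∀ W : ℕ, ∀ ω, A ω → ∀ v, (tp W ω v).natDegree ≤ K
  tv : ∀ W : ℕ, ⌊(w₁ : ℝ) * J⌋₊ ≤ W → W ≤ J → ∀ ω, A ω → ∀ v,
    (tp W ω v).eval (rt F W ω) = TV ω v
  sL : Det (Pool.Agent.H49.Ent.cond F.p A True) (slam F ⌊(w₁ : ℝ) * J⌋₊) sd
  /-- the gradients -/
  grd : GrTC F c k q X γ (2 ^ (Cg * (⌈1000 * y * J⌉₊ + 3))) A G₀ Xt i0 gg TV sd Cj Cx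
  hj : Det (Pool.Agent.H49.Ent.cond F.p A True) (cR F A j) Cj
  hx : Det (Pool.Agent.H49.Ent.cond F.p A True) (cR F A x) Cx
  /-- the side path is few bits given the near path and the record at `a` -/
  sa : CH (Pool.Agent.H49.Ent.cond F.p A True) sd
    (fun ω => (nrP F c k sn H w (u + 100 * y) ω, (cR F A a ω, F.W ω))) ≤ δ * u * J
  /-- no look-ahead over the deep path -/
  nl : ∀ ne Pe' : ℕ → ℝ, (∀ l < k, sn l w + 3 * T * u ≤ ne l ∧ ne l ≤ sn l w + 3 * T * u + 100 * y ∧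
      sn l w - w + 3 * T * u ≤ Pe' l ∧ Pe' l ≤ sn l w - w + (3 * T + k + 2) * u) →
    MI (Pool.Agent.H49.Ent.cond F.p A True) (cR F A j)
      (fun ω (v : Fin C) => ⌊(2 : ℝ) ^ Xt v * TV ω v⌋)
      (fun ω => ((fun v : Fin C => ⌊TV ω v⌋), (sd ω, ((jh F c k ⌊w * J⌋₊ H ne ω,
        jv F c k ⌊w * J⌋₊ H Pe' ω), (cR F A w₁ ω, F.W ω))))) ≤ δ * u * J
  /-- the codes of order `≥ 1` of the targets, over the far path -/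
  dj : ∀ W : ℕ, ⌊(w₁ : ℝ) * J⌋₊ ≤ W → (W : ℝ) ≤ (w + 2 * φ) * J →
    CH (Pool.Agent.H49.Ent.cond F.p A True)
      (fun ω v (i : Fin K) => ⌊(2 : ℝ) ^ Xt v * (tp W ω v).coeff i.succ⌋)
      (fun ω => (nrP F c k sn H w (T * u) ω, (sd ω, (cR F A w₁ ω, F.W ω)))) ≤ δ * u * J
  /-- the near codes of the targets, over the near path and the record at `x` -/
  jt : ∀ W : ℕ, ⌊(w₁ : ℝ) * J⌋₊ ≤ W → (W : ℝ) ≤ (w + 2 * φ) * J →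
    CH (Pool.Agent.H49.Ent.cond F.p A True)
      (fun ω v (i : Fin (K + 1)) => ⌊(2 : ℝ) ^ Xt v * (tp W ω v).coeff i⌋ / 2 ^ Xt v)
      (fun ω => (nrP F c k sn H w (u + 100 * y) ω, (sd ω, (cR F A x ω, F.W ω)))) ≤ δ * u * J
  /-- the rows -/
  row : ∀ B : F.Ω → Prop, Sub B A → π₀ * Pe F.p A ≤ Pe F.p B →
    CH (Pool.Agent.H49.Ent.cond F.p B True) (fun ω => ⌊(2 : ℝ) ^ Xt i0 * TV ω i0⌋)
      (fun ω => ((⌊TV ω i0⌋, oth i0 (fun v : Fin C => ⌊(2 : ℝ) ^ Xt v * TV ω v⌋)),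
        (Vv F c k ⌊w * J⌋₊ H (fun l => ((γ l + q + X : ℕ) : ℝ)) ω,
        (sd ω, (cR F A w₁ ω, F.W ω))))) ≤ ((1 - h) * ξ * u * Real.log 2 + δ * u) * J

/-- **(V0PD)** The class theorem for several targets. -/
def V0pDStmt : Prop := ∀ (C D D' k K : ℕ) (h x₀ ξ ε : ℝ), 1 ≤ D → D ≤ D' → D' + 1 ≤ K → 1 ≤ k →
  0 < h → h ≤ 1 → 0 < x₀ → x₀ < h → 0 < ξ → ξ ≤ 1 → 0 < ε →
  ∃ π₀ δ₀ T₀ : ℝ, 0 < π₀ ∧ 0 < δ₀ ∧ ∀ T : ℝ, T₀ ≤ T → ∃ Λ : ℝ, 1 ≤ Λ ∧ ∀ Cg : ℕ,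
  ∃ φ₀ : ℝ, 0 < φ₀ ∧
  ∀ {m : ℕ} {S : PCl m} {c : ℕ → Fin m} {sn : ℕ → ℝ → ℝ} {G : Set ℝ} {b o φ : ℝ},
    Lad S c k sn G b o φ → ∀ {w u y j x a x' x'' : ℝ} {w₁ : ℚ} {sp : ℕ → ℝ → ℝ}, y ≤ φ₀ * u →
    PW k sn G b o φ w u y T Λ w₁ j x a x' x'' →
    -- free velocities
    (∀ i < k, sp i b ≤ sn i b - φ) →
    (∀ (P : Fin k → ℚ) (xe : ℝ), xe = x' ∨ xe = x'' →
      (∀ i : Fin k, sn i w - w + u ≤ P i ∧ (P i : ℝ) ≤ sn i w - w + Λ * u) →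
      (∀ l i : Fin k, l < i → (P i : ℝ) - (sn i w - w) + u / 2 ≤ P l - (sn l w - w)) →
      FrI S c k sp b (fun i => (P i : ℝ)) w₁ xe (φ₀ * u)) →
    -- the records
    (∃ η : ℝ, RNum S (fun J F => ptr F J) (vg (w₁ : ℝ)) η) →
    ∀ E : ℝ, Bas S (fun J F A => ∀ (G₀ : PtT F → ℕ → MvPolynomial (Option (Fin m)) ℝ)
      (Hb Hw H₀ H : LnT F → ℕ → MvPolynomial (Option (Fin m)) ℝ) (γ : ℕ → ℕ)
      (gg : F.Ω → Fin k → ℝ) (Xt : Fin C → ℕ) (i0 : Fin C) (TV : F.Ω → Fin C → ℝ)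
      (tp : ℕ → F.Ω → Fin C → Polynomial ℝ) (χ₁ χ₂ σ : Type)
      (Cj : F.Ω → χ₁) (Cx : F.Ω → χ₂) (sd : F.Ω → σ),
      LD F c k D b w φ E sn A Hb Hw H₀ →
      (∀ ω, ∀ l < k, H (slam F ⌊w * J⌋₊ ω) l = Hb (slam F ⌊b * J⌋₊ ω) l) →
      PEvD F c k D' K ⌊(u + 500 * y) * J⌋₊ ⌊ξ * u * J⌋₊ Cg sn w u y φ ξ T w₁ j x a h π₀ δ₀ A G₀ H γ
        gg Xt i0 TV tp Cj Cx sd →
      ∃ (W : ℕ) (mu : LnT F → Fin k → Polynomial ℝ), ⌊(w₁ : ℝ) * J⌋₊ ≤ W ∧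
        (W : ℝ) ≤ (w + 2 * φ) * J ∧ (∀ s i, (mu s i).natDegree ≤ K) ∧
        Pb (Pool.Agent.H49.Ent.cond F.p A True) (fun ω => ∃ i : Fin k,
          (2 : ℝ) ^ (-(x₀ * ⌊ξ * u * J⌋₊)) <
            |gg ω i - (mu (slam F W ω) i).eval (rt F W ω)|) ≤ ε)

/-- (V0PC) from (V0PD). -/
theorem v0pC_of_d (h : V0pDStmt) : V0pCStmt := by
  intro C D D' k K h' x₀ ξ ε hD hDD hK hk hh hh1 hx hxh hξ hξ1 hε
  obtain ⟨π₀, δ₀, T₀, hπ, hδ, H⟩ := h C D D' k K h' x₀ ξ ε hD hDD hK hk hh hh1 hx hxh hξ hξ1 hε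
  refine ⟨π₀, δ₀, T₀, hπ, hδ, fun T hT => ?_⟩
  obtain ⟨Λ, hΛ, H⟩ := H T hT
  refine ⟨Λ, hΛ, fun Cg => ?_⟩
  obtain ⟨φ₀, hφ, H⟩ := H Cg
  refine ⟨φ₀, hφ, ?_⟩
  intro m S c sn G b o φ L w u y j x a x' x'' w₁ sp hy W hsp hfr hη E
  refine Bas.mono 0 (H L hy W hsp hfr hη E) ?_
  rintro J - F A H G₀ Hb Hw H₀ Hl γ gg Xt i0 TV tp χ₁ χ₂ σ Cj Cx sd hLD hH g
  exact H G₀ Hb Hw H₀ Hl γ gg Xt i0 TV tp χ₁ χ₂ σ Cj Cx sd hLD hH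
    { deg := g.deg
      cl := g.cl
      γb := g.γb
      xX := g.xX
      tL := g.tL
      dP := g.dP
      tv := g.tv
      sL := g.sL
      grd := g.grd
      hj := g.hj
      hx := g.hx
      sa := g.sa
      nl := g.nl
      dj := g.dj
      jt := g.jt
      row := fun B h1 h2 => by
        rw [g.x0]
        exact g.row B h1 h2 }

end Pool.VP83
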